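import Mathlib

set_option autoImplicit false

/-! Dimension shifting for `Ext` along a surjection from a projective module. -/

namespace Pool.Agent.Tach

open CategoryTheory

variable {R : Type} [Ring R] {K P Y B : Type} [AddCommGroup K] [Module R K] [AddCommGroup P]
  [Module R P] [AddCommGroup Y] [Module R Y] [AddCommGroup B] [Module R B]
  [CategoryTheory.HasExt.{1} (ModuleCat.{0} R)]

omit [CategoryTheory.HasExt.{1} (ModuleCat.{0} R)] in
lemma shortEx (g : K →ₗ[R] P) (f : P →ₗ[R] Y) (hg : Function.Injective g)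
    (hf : Function.Surjective f) (hgf : Function.Exact g f) :
    (ModuleCat.shortComplexOfCompEqZero g f hgf.linearMap_comp_eq_zero).ShortExact :=
  ModuleCat.shortComplex_shortExact _ hgf hg hf

lemma ext_shift [Module.Projective R P] (g : K →ₗ[R] P) (f : P →ₗ[R] Y)
    (hg : Function.Injective g) (hf : Function.Surjective f) (hgf : Function.Exact g f) {i : ℕ}
    (hi : 1 ≤ i)
    (h : Subsingleton (Abelian.Ext.{1} (ModuleCat.of R Y) (ModuleCat.of R B) (1 + i))) :
    Subsingleton (Abelian.Ext.{1} (ModuleCat.of R K) (ModuleCat.of R B) i) := by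
  have hS := shortEx g f hg hf hgf
  refine ⟨fun x y => ?_⟩
  have key : ∀ x : Abelian.Ext.{1} (ModuleCat.of R K) (ModuleCat.of R B) i,
      x = 0 := by
    intro x
    have h1 : hS.extClass.comp x (rfl : 1 + i = 1 + i) = 0 := h.elim _ _
    obtain ⟨y, hy⟩ := Abelian.Ext.contravariant_sequence_exact₁ hS _ x rfl h1
    have : Projective (ModuleCat.shortComplexOfCompEqZero g f hgf.linearMap_comp_eq_zero).X₂ := by
      change Projective (ModuleCat.of R P)
      exact (IsProjective.iff_projective P).1 inferInstance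
    obtain ⟨j, rfl⟩ : ∃ j, i = j + 1 := ⟨i - 1, by omega⟩
    rw [← hy, Abelian.Ext.eq_zero_of_projective y, Abelian.Ext.comp_zero]
  rw [key x, key y]

lemma ext_extend (g : K →ₗ[R] P) (f : P →ₗ[R] Y)
    (hg : Function.Injective g) (hf : Function.Surjective f) (hgf : Function.Exact g f)
    (h : Subsingleton (Abelian.Ext.{1} (ModuleCat.of R Y) (ModuleCat.of R B) (1 + 0)))
    (φ : K →ₗ[R] B) :
    ∃ ψ : P →ₗ[R] B, ∀ x : K, ψ (g x) = φ x := by
  have hS := shortEx g f hg hf hgf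
  let x : Abelian.Ext.{1} (ModuleCat.of R K) (ModuleCat.of R B) 0 :=
    Abelian.Ext.mk₀ (ModuleCat.ofHom φ)
  have h1 : hS.extClass.comp x (rfl : 1 + 0 = 1 + 0) = 0 := h.elim _ _
  obtain ⟨y, hy⟩ := Abelian.Ext.contravariant_sequence_exact₁ hS _ x rfl h1
  obtain ⟨u, rfl⟩ := (Abelian.Ext.mk₀_bijective _ _).2 y
  rw [Abelian.Ext.mk₀_comp_mk₀] at hy
  have h2 := (Abelian.Ext.mk₀_bijective _ _).1 hy
  refine ⟨u.hom, fun z => ?_⟩
  have h3 := congrArg (fun t => t.hom z) h2
  exact h3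

/-- `Ext` of direct summands. -/
lemma ext_retract {X X' B' : Type} [AddCommGroup X] [Module R X] [AddCommGroup X'] [Module R X']
    [AddCommGroup B'] [Module R B'] (j : X' →ₗ[R] X) (p : X →ₗ[R] X') (hpj : p ∘ₗ j = LinearMap.id)
    (s : B' →ₗ[R] B) (t : B →ₗ[R] B') (hts : t ∘ₗ s = LinearMap.id) {i : ℕ}
    (h : Subsingleton (Abelian.Ext.{1} (ModuleCat.of R X) (ModuleCat.of R B) i)) :
    Subsingleton (Abelian.Ext.{1} (ModuleCat.of R X') (ModuleCat.of R B') i) := by
  have key : ∀ x : Abelian.Ext.{1} (ModuleCat.of R X') (ModuleCat.of R B') i, x = 0 := by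
    intro x
    have h1 : ((Abelian.Ext.mk₀ (ModuleCat.ofHom p)).comp x (zero_add i)).comp
        (Abelian.Ext.mk₀ (ModuleCat.ofHom s)) (add_zero i) = 0 := h.elim _ _
    have h2 : (Abelian.Ext.mk₀ (ModuleCat.ofHom j)).comp
        ((((Abelian.Ext.mk₀ (ModuleCat.ofHom p)).comp x (zero_add i)).comp
        (Abelian.Ext.mk₀ (ModuleCat.ofHom s)) (add_zero i)).comp
        (Abelian.Ext.mk₀ (ModuleCat.ofHom t)) (add_zero i)) (zero_add i) = x := by
      rw [Abelian.Ext.comp_assoc_of_second_deg_zero, Abelian.Ext.mk₀_comp_mk₀,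
        ← ModuleCat.ofHom_comp, hts]
      change (Abelian.Ext.mk₀ (ModuleCat.ofHom j)).comp
        (((Abelian.Ext.mk₀ (ModuleCat.ofHom p)).comp x (zero_add i)).comp
        (Abelian.Ext.mk₀ (𝟙 _)) (add_zero i)) (zero_add i) = x
      rw [Abelian.Ext.comp_mk₀_id, Abelian.Ext.mk₀_comp_mk₀_assoc, ← ModuleCat.ofHom_comp, hpj]
      exact Abelian.Ext.mk₀_id_comp x
    rw [← h2, h1, Abelian.Ext.zero_comp, Abelian.Ext.comp_zero]
  exact ⟨fun x y => by rw [key x, key y]⟩

end Pool.Agent.Tach
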