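import Pool.Agent.Tach.Local

set_option autoImplicit false

/-! Consequences of the criterion. -/

namespace Pool.Agent.Tach

open Finset IsLocalRing

section principal

variable {A : Type} [CommRing A] [IsLocalRing A]

/-- A local artinian ring with a principal maximal ideal is self-injective. -/
lemma inj_of_principal [IsArtinianRing A] (v : A) (hv : maximalIdeal A = Ideal.span {v}) :
    Module.Injective A A := by
  classical
  have hnil : ∃ L : ℕ, v ^ L = 0 := by
    have h := IsArtinianRing.isNilpotent_jacobson_bot (R := A)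
    rw [IsLocalRing.jacobson_eq_maximalIdeal ⊥ bot_ne_top] at h
    obtain ⟨L, hL⟩ := h
    refine ⟨L, ?_⟩
    have h1 : v ^ L ∈ maximalIdeal A ^ L :=
      Ideal.pow_mem_pow (by rw [hv]; exact Ideal.mem_span_singleton_self v) L
    rw [hL] at h1
    exact h1
  have hL := Nat.find_spec hnil
  have hmin := fun m (hm : m < Nat.find hnil) => Nat.find_min hnil hm
  generalize Nat.find hnil = L at *
  -- normal form
  have hnf : ∀ a : A, a ≠ 0 → ∃ (i : ℕ) (u : A), IsUnit u ∧ a = u * v ^ i := by
    intro a ha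
    have hex : ∃ n : ℕ, a ∉ Ideal.span {v ^ n} := by
      refine ⟨L, ?_⟩
      rw [hL, Ideal.span_singleton_eq_bot.2 rfl]
      exact ha
    have h1 := Nat.find_spec hex
    have h2 := fun m (hm : m < Nat.find hex) => Nat.find_min hex hm
    generalize Nat.find hex = n at *
    rcases n with _ | n
    · rw [pow_zero, Ideal.span_singleton_one] at h1
      exact absurd trivial h1
    · have h3 := h2 n (Nat.lt_succ_self n)
      rw [not_not, Ideal.mem_span_singleton'] at h3
      obtain ⟨c, hc⟩ := h3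
      refine ⟨n, c, ?_, hc.symm⟩
      by_contra hcu
      have h4 : c ∈ maximalIdeal A := (mem_maximalIdeal _).2 hcu
      rw [hv, Ideal.mem_span_singleton'] at h4
      obtain ⟨c', hc'⟩ := h4
      apply h1
      rw [Ideal.mem_span_singleton']
      exact ⟨c', by rw [← hc, ← hc', pow_succ]; ring⟩
  apply Module.Baer.injective
  intro I g
  by_cases hI : I = ⊥
  · refine ⟨0, fun x hx => ?_⟩
    have h1 : x = 0 := by rw [hI] at hx; exact hx
    have h2 : (⟨x, hx⟩ : I) = 0 := Subtype.ext h1
    rw [h2, map_zero, LinearMap.zero_apply]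
  · have hex : ∃ n : ℕ, v ^ n ∈ I := by
      obtain ⟨a, ha, ha0⟩ := Submodule.exists_mem_ne_zero_of_ne_bot hI
      obtain ⟨i, u, hu, rfl⟩ := hnf a ha0
      refine ⟨i, ?_⟩
      obtain ⟨c, hc⟩ := hu.exists_left_inv
      have := I.mul_mem_left c ha
      rwa [← mul_assoc, hc, one_mul] at this
    have h1 := Nat.find_spec hex
    have h2 := fun m (hm : m < Nat.find hex) => Nat.find_min hex hm
    generalize Nat.find hex = n at *
    have hdiv : ∀ x ∈ I, ∃ r, x = r * v ^ n := by
      intro x hx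
      by_cases hx0 : x = 0
      · exact ⟨0, by rw [hx0, zero_mul]⟩
      obtain ⟨i, u, hu, rfl⟩ := hnf x hx0
      have h3 : v ^ i ∈ I := by
        obtain ⟨c, hc⟩ := hu.exists_left_inv
        have := I.mul_mem_left c hx
        rwa [← mul_assoc, hc, one_mul] at this
      have h4 : n ≤ i := by
        by_contra hlt
        exact h2 i (by omega) h3
      refine ⟨u * v ^ (i - n), ?_⟩
      rw [mul_assoc, ← pow_add, Nat.sub_add_cancel h4]
    have hnL : n ≤ L := by
      by_contra hlt
      exact h2 L (by omega) (by rw [hL]; exact I.zero_mem)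
    have hb : ∃ c, g ⟨v ^ n, h1⟩ = c * v ^ n := by
      by_cases hb0 : g ⟨v ^ n, h1⟩ = 0
      · exact ⟨0, by rw [hb0, zero_mul]⟩
      obtain ⟨j, u, hu, hj⟩ := hnf _ hb0
      have h3 : v ^ (L - n) * g ⟨v ^ n, h1⟩ = 0 := by
        have h4 : (v ^ (L - n)) • (⟨v ^ n, h1⟩ : I) = 0 := by
          apply Subtype.ext
          change v ^ (L - n) * v ^ n = 0
          rw [← pow_add, Nat.sub_add_cancel hnL, hL]
        rw [← smul_eq_mul, ← map_smul, h4, map_zero]
      rw [hj] at h3
      have h5 : v ^ (L - n + j) = 0 := by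
        obtain ⟨c, hc⟩ := hu.exists_left_inv
        have h6 : c * (v ^ (L - n) * (u * v ^ j)) = 0 := by rw [h3, mul_zero]
        calc v ^ (L - n + j) = (c * u) * (v ^ (L - n) * v ^ j) := by rw [hc, one_mul, pow_add]
          _ = c * (v ^ (L - n) * (u * v ^ j)) := by ring
          _ = 0 := h6
      have h7 : L ≤ L - n + j := by
        by_contra hlt
        exact hmin _ (by omega) h5
      refine ⟨u * v ^ (j - n), ?_⟩
      rw [hj, mul_assoc, ← pow_add, Nat.sub_add_cancel (by omega)]
    obtain ⟨c, hc⟩ := hb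
    refine ⟨LinearMap.toSpanSingleton A A c, fun x hx => ?_⟩
    obtain ⟨r, rfl⟩ := hdiv x hx
    have h3 : (⟨r * v ^ n, hx⟩ : I) = r • ⟨v ^ n, h1⟩ := rfl
    rw [h3, map_smul, hc, LinearMap.toSpanSingleton_apply, smul_eq_mul, smul_eq_mul]
    ring

/-- If the maximal ideal is not principal, every element has a partner. -/
lemma partner [IsNoetherianRing A] (h : ¬ ∃ v : A, maximalIdeal A = Ideal.span {v}) {x : A}
    (hx : x ∈ maximalIdeal A) :
    ∃ y ∈ maximalIdeal A, ∀ a b : A, a * x + b * y ∈ maximalIdeal A ^ 2 → b ∈ maximalIdeal A := by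
  by_contra hcon
  push Not at hcon
  apply h
  refine ⟨x, le_antisymm ?_ ?_⟩
  · refine Submodule.le_of_le_smul_of_le_jacobson_bot (N' := maximalIdeal A)
      (N := Ideal.span {x}) (I := maximalIdeal A) (IsNoetherian.noetherian _)
      (IsLocalRing.maximalIdeal_le_jacobson _) ?_
    intro y hy
    obtain ⟨a, b, hab, hb⟩ := hcon y hy
    have hbu : IsUnit b := by
      by_contra hbu
      exact hb ((mem_maximalIdeal _).2 hbu)
    obtain ⟨c, hc⟩ := hbu.exists_left_inv
    rw [smul_eq_mul, ← pow_two]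
    have h1 : y = -(c * a) * x + c * (a * x + b * y) := by
      have : c * (b * y) = y := by rw [← mul_assoc, hc, one_mul]
      linear_combination -this
    rw [h1]
    exact Submodule.add_mem_sup (Ideal.mul_mem_left _ _ (Ideal.mem_span_singleton_self x))
      (Ideal.mul_mem_left _ _ hab)
  · rw [Ideal.span_singleton_le_iff_mem]
    exact hx

end principal

section criterion

variable {A : Type} [CommRing A] [IsLocalRing A] {J : Ideal A}
  (H : ∀ (g : A) (hg : g ∈ Submodule.annihilator J) (c : Ideal A),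
        (∀ φ : (Submodule.annihilator J : Ideal A) →ₗ[A] (A ⧸ J),
          φ ⟨g, hg⟩ ∈ Ideal.map (Ideal.Quotient.mk J) c) → g ∈ J * (c ⊔ J))

include H

omit [IsLocalRing A] in
lemma crit_one : Submodule.annihilator J ≤ J := by
  intro g hg
  have h1 : g ∈ J * (⊤ ⊔ J) := H g hg ⊤ (fun φ => by
    rw [Ideal.map_top]
    exact Submodule.mem_top)
  exact Ideal.mul_le_left (I := J) (J := ⊤ ⊔ J) h1

lemma crit_two [IsNoetherianRing A] (hp : ¬ ∃ v : A, maximalIdeal A = Ideal.span {v})
    (hJ2 : J ≤ maximalIdeal A ^ 2) (a : A)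
    (ha : ∀ y ∈ maximalIdeal A, y * a ∈ Submodule.annihilator J) (x : A)
    (hx : x ∈ maximalIdeal A) : x * a ∈ maximalIdeal A * J := by
  obtain ⟨y, hy, hxy⟩ := partner hp hx
  have hm2 : maximalIdeal A ^ 2 ≤ maximalIdeal A := Ideal.pow_le_self two_ne_zero
  have h1 := H (x * a) (ha x hx) (maximalIdeal A) (fun φ => by
    obtain ⟨w, hw⟩ := Ideal.Quotient.mk_surjective (φ ⟨x * a, ha x hx⟩)
    obtain ⟨w', hw'⟩ := Ideal.Quotient.mk_surjective (φ ⟨y * a, ha y hy⟩)
    rw [← hw]
    refine Ideal.mem_map_of_mem _ (hxy (-w') w ?_)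
    apply hJ2
    rw [← Ideal.Quotient.eq_zero_iff_mem, map_add, map_mul, map_mul, map_neg, hw, hw']
    have h2 : y • φ ⟨x * a, ha x hx⟩ = x • φ ⟨y * a, ha y hy⟩ := by
      rw [← map_smul, ← map_smul]
      congr 1
      apply Subtype.ext
      change y * (x * a) = x * (y * a)
      ring
    have h3 : ∀ (r : A) (z : A ⧸ J), r • z = Ideal.Quotient.mk J r * z := fun r z => by
      rw [Algebra.smul_def]; rfl
    rw [h3, h3] at h2
    linear_combination h2)
  rw [mul_comm (maximalIdeal A) J]
  refine Ideal.mul_mono_right ?_ h1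
  exact sup_le le_rfl (hJ2.trans hm2)

lemma crit_pow [IsNoetherianRing A] (hp : ¬ ∃ v : A, maximalIdeal A = Ideal.span {v})
    (hJ2 : J ≤ maximalIdeal A ^ 2) (i : ℕ) (hi : maximalIdeal A ^ (i + 1) * J = ⊥) :
    maximalIdeal A ^ (i + 1) ≤ maximalIdeal A * J := by
  rw [pow_succ', Ideal.mul_le]
  intro x hx a ha
  refine crit_two H hp hJ2 a (fun y hy => ?_) x hx
  rw [Submodule.mem_annihilator]
  intro j hj
  have h1 : y * a * j ∈ maximalIdeal A ^ (i + 1) * J := by
    refine Ideal.mul_mem_mul ?_ hj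
    rw [pow_succ']
    exact Ideal.mul_mem_mul hy ha
  rw [hi] at h1
  exact h1

end criterion

section final

variable {A : Type} [CommRing A] [IsLocalRing A] [IsArtinianRing A]

lemma nak {i : ℕ} (h : maximalIdeal A ^ i ≤ maximalIdeal A ^ (i + 1)) :
    maximalIdeal A ^ i = ⊥ := by
  have hnil : ∃ L : ℕ, maximalIdeal A ^ L = ⊥ := by
    have h := IsArtinianRing.isNilpotent_jacobson_bot (R := A)
    rw [IsLocalRing.jacobson_eq_maximalIdeal ⊥ bot_ne_top] at h
    exact h
  obtain ⟨L, hL⟩ := hnil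
  have h1 : ∀ j, maximalIdeal A ^ i ≤ maximalIdeal A ^ (i + j) := by
    intro j
    induction j with
    | zero => exact le_rfl
    | succ j ih =>
      calc maximalIdeal A ^ i ≤ maximalIdeal A ^ (i + 1) := h
        _ = maximalIdeal A ^ i * maximalIdeal A := pow_succ _ _
        _ ≤ maximalIdeal A ^ (i + j) * maximalIdeal A := Ideal.mul_mono_left ih
        _ = maximalIdeal A ^ (i + (j + 1)) := by rw [← pow_succ, add_assoc]
  rw [eq_bot_iff, ← hL]
  exact (h1 L).trans (Ideal.pow_le_pow_right (by omega))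

/-- The criterion excludes the case `m ^ (2 s) = 0` when `m ^ s` is admissible. -/
theorem pow_contra (hni : ¬ Module.Injective A A)
    (H : ∀ J : Ideal A, AdmJ (maximalIdeal A) J →
      ∀ (g : A) (hg : g ∈ Submodule.annihilator J) (c : Ideal A),
        (∀ φ : (Submodule.annihilator J : Ideal A) →ₗ[A] (A ⧸ J),
          φ ⟨g, hg⟩ ∈ Ideal.map (Ideal.Quotient.mk J) c) → g ∈ J * (c ⊔ J))
    {s : ℕ} (hs : 2 ≤ s) (hJ : AdmJ (maximalIdeal A) (maximalIdeal A ^ s))
    (h2s : maximalIdeal A ^ (2 * s) = ⊥) : False := by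
  have hp : ¬ ∃ v : A, maximalIdeal A = Ideal.span {v} := fun ⟨v, hv⟩ =>
    hni (inj_of_principal v hv)
  have HJ := H _ hJ
  obtain ⟨i, rfl⟩ : ∃ i, s = i + 1 := ⟨s - 1, by omega⟩
  have h1 := crit_pow HJ hp (Ideal.pow_le_pow_right hs) i (by
    rw [← pow_add, ← two_mul]
    exact h2s)
  rw [← pow_succ'] at h1
  have h3 := nak h1
  have hC1 := crit_one HJ
  rw [h3] at hC1
  have h4 : (1 : A) ∈ (⊥ : Ideal A) := hC1 (by
    rw [Submodule.mem_annihilator]
    intro n hn
    rw [(Submodule.mem_bot A).1 hn, smul_zero])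
  exact one_ne_zero ((Submodule.mem_bot A).1 h4)

end final

end Pool.Agent.Tach
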