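import Mathlib

set_option autoImplicit false

/-! Operators on the tensor square of a based complex over a ring of characteristic two. -/

namespace Pool.Agent.Tach

open Finset

variable {A : Type} [CommRing A] (n : ℕ → ℕ)

/-- Index set of the bases of all the free modules. -/
abbrev Idx := Σ i, Fin (n i)

/-- The (completed) tensor square. -/
abbrev VV (A : Type) (n : ℕ → ℕ) := Idx n → Idx n → A

/-- The diagonal part. -/
abbrev UU (A : Type) (n : ℕ → ℕ) := Idx n → A

variable {n}

/-- strict order on the indices -/
def lt (p q : Idx n) : Prop := p.1 < q.1 ∨ (p.1 = q.1 ∧ (p.2 : ℕ) < q.2)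

instance (p q : Idx n) : Decidable (lt p q) := by unfold lt; infer_instance

lemma lt_irrefl (p : Idx n) : ¬ lt p p := by
  unfold lt; rintro (h | h)
  · exact absurd h (by omega)
  · exact absurd h.2 (by omega)

lemma lt_asymm {p q : Idx n} (h : lt p q) : ¬ lt q p := by
  unfold lt at *; omega

lemma lt_or (p q : Idx n) : p = q ∨ lt p q ∨ lt q p := by
  obtain ⟨i, r⟩ := p
  obtain ⟨j, s⟩ := q
  unfold lt
  rcases lt_trichotomy i j with h | h | h
  · right; left; left; exact h
  · subst h
    rcases lt_trichotomy (r : ℕ) (s : ℕ) with h | h | h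
    · right; left; right; exact ⟨rfl, h⟩
    · left; congr; exact Fin.ext h
    · right; right; right; exact ⟨rfl, h⟩
  · right; right; left; exact h

/-- left differential -/
def lop (D : Idx n → Idx n → A) : Module.End A (VV A n) where
  toFun z := fun p q => ∑ s : Fin (n (p.1 + 1)), D p ⟨p.1 + 1, s⟩ * z ⟨p.1 + 1, s⟩ q
  map_add' x y := by
    funext p q
    simp only [Pi.add_apply, mul_add, sum_add_distrib]
  map_smul' c x := by
    funext p q
    simp only [Pi.smul_apply, smul_eq_mul, mul_sum, RingHom.id_apply]
    refine sum_congr rfl fun s _ => by ring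

/-- the swap -/
def sw : Module.End A (VV A n) where
  toFun z := fun p q => z q p
  map_add' x y := rfl
  map_smul' c x := rfl

/-- the total differential -/
def bd (D : Idx n → Idx n → A) : Module.End A (VV A n) := lop D + sw * lop D * sw

/-- the contraction of the swap -/
def hop : Module.End A (VV A n) where
  toFun z := fun p q => if lt p q then z q p else 0
  map_add' x y := by
    funext p q
    by_cases h : lt p q <;> simp [h]
  map_smul' c x := by
    funext p q
    by_cases h : lt p q <;> simp [h]

/-- diagonal inclusion -/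
def dg : UU A n →ₗ[A] VV A n where
  toFun u := fun p q => if p = q then u p else 0
  map_add' x y := by
    funext p q
    by_cases h : p = q <;> simp [h]
  map_smul' c x := by
    funext p q
    by_cases h : p = q <;> simp [h]

/-- diagonal projection -/
def pr : VV A n →ₗ[A] UU A n where
  toFun z := fun p => z p p
  map_add' x y := rfl
  map_smul' c x := rfl

/-- one plus the swap -/
def ss : Module.End A (VV A n) := 1 + sw

section apply

variable (D : Idx n → Idx n → A) (z : VV A n) (u : UU A n) (p q : Idx n)

lemma lop_apply : lop D z p q = ∑ s : Fin (n (p.1 + 1)), D p ⟨p.1 + 1, s⟩ * z ⟨p.1 + 1, s⟩ q := rfl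

lemma sw_apply : sw z p q = z q p := rfl

lemma bd_apply : bd D z p q = (∑ s : Fin (n (p.1 + 1)), D p ⟨p.1 + 1, s⟩ * z ⟨p.1 + 1, s⟩ q)
    + ∑ s : Fin (n (q.1 + 1)), D q ⟨q.1 + 1, s⟩ * z p ⟨q.1 + 1, s⟩ := rfl

lemma hop_apply : hop z p q = if lt p q then z q p else 0 := rfl

lemma dg_apply : dg u p q = if p = q then u p else 0 := rfl

lemma pr_apply : pr z p = z p p := rfl

lemma ss_apply : ss z p q = z p q + z q p := rfl

end apply

section char2

variable (h2 : (2 : A) = 0)

include h2

lemma add_self2 (a : A) : a + a = 0 := by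
  rw [← two_mul, h2, zero_mul]

lemma vadd_self (z : VV A n) : z + z = 0 := by
  funext p q
  exact add_self2 h2 _

lemma eadd_self (f : Module.End A (VV A n)) : f + f = 0 := by
  ext z : 1
  exact vadd_self h2 _

lemma vsub_eq (a b : VV A n) : a - b = a + b := by
  rw [sub_eq_iff_eq_add, add_assoc, vadd_self h2, add_zero]

lemma ss_ss : (ss * ss : Module.End A (VV A n)) = 0 := by
  ext z p q
  simp only [Module.End.mul_apply, ss_apply, LinearMap.zero_apply, Pi.zero_apply]
  rw [add_comm (z q p) (z p q)]
  exact add_self2 h2 _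

lemma ss_dg (u : UU A n) : ss (dg u) = 0 := by
  funext p q
  rw [ss_apply, dg_apply, dg_apply]
  by_cases h : p = q
  · subst h; simp [add_self2 h2]
  · have h' : ¬ q = p := fun e => h e.symm
    simp [h, h']

lemma pr_ss (z : VV A n) : pr (ss z) = 0 := by
  funext p
  rw [pr_apply, ss_apply]
  exact add_self2 h2 _

omit h2 in
lemma hop_dg (u : UU A n) : hop (dg u) = 0 := by
  funext p q
  rw [hop_apply]
  by_cases h : lt p q
  · rw [if_pos h, dg_apply, if_neg]
    · rfl
    · rintro rfl; exact lt_irrefl _ h
  · rw [if_neg h]; rfl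

omit h2 in
lemma pr_hop (z : VV A n) : pr (hop z) = 0 := by
  funext p
  rw [pr_apply, hop_apply, if_neg (lt_irrefl p)]; rfl

omit h2 in
lemma pr_dg (u : UU A n) : pr (dg u) = u := by
  funext p
  rw [pr_apply, dg_apply, if_pos rfl]

omit h2 in
lemma hop_hop (z : VV A n) : hop (hop z) = 0 := by
  funext p q
  rw [hop_apply]
  by_cases h : lt p q
  · rw [if_pos h, hop_apply, if_neg (lt_asymm h)]; rfl
  · rw [if_neg h]; rfl

lemma homotopy (z : VV A n) : ss (hop z) + hop (ss z) = z + dg (pr z) := by
  funext p q
  simp only [Pi.add_apply, ss_apply, hop_apply, dg_apply, pr_apply]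
  rcases lt_or p q with h | h | h
  · subst h
    simp [lt_irrefl, add_self2 h2]
  · have h1 : ¬ lt q p := lt_asymm h
    have h3 : ¬ p = q := by rintro rfl; exact lt_irrefl _ h
    simp only [h, h1, h3, if_true, if_false]
    have := add_self2 h2 (z q p)
    linear_combination this
  · have h1 : ¬ lt p q := lt_asymm h
    have h3 : ¬ p = q := by rintro rfl; exact lt_irrefl _ h
    simp only [h, h1, h3, if_true, if_false]
    ring

end char2

end Pool.Agent.Tach
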