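import Pool.Agent.Tach.Exact

set_option autoImplicit false

/-! The two consequences for the base ring. -/

namespace Pool.Agent.Tach

open Finset

variable {A : Type} [CommRing A] {n : ℕ → ℕ} (D : Idx n → Idx n → A)

section

variable {m : Ideal A} (hD : ∀ p q, D p q ∈ m) {L : ℕ} (hL : m ^ L = ⊥) (h2 : (2 : A) = 0)
  (hDD : ∀ (p : Idx n) (r : Fin (n (p.1 + 1 + 1))),
    ∑ s : Fin (n (p.1 + 1)), D p ⟨p.1 + 1, s⟩ * D ⟨p.1 + 1, s⟩ ⟨p.1 + 1 + 1, r⟩ = 0)
  {N : ℕ} (hX : ∀ b, N ≤ b → ∀ z : VV A n, homog z b → bd D z = 0 →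
  ∃ w : VV A n, homog w (b + 1) ∧ bd D w = z)

include hD hL h2 hDD hX

lemma uexact (j : ℕ) {u : UU A n} (hu : suppU u (j + L + N)) (hu' : DU D L u = 0) :
    ∃ t : UU A n, suppU t j ∧ DU D L t = u := by
  have h1 : supp (gs D L (dg u)) (2 * j + L + 2 * N) := by
    refine gs_supp D L (supp_mono ?_ (dg_supp hu))
    omega
  have h3 : Dt D (gs D L (dg u)) = 0 := by
    rw [incl_chain D hD hL h2 hDD, hu', map_zero, map_zero]
  obtain ⟨w, hw, hw'⟩ := DX D h2 hDD hX (b := 2 * j + L + 2 * N) (by omega) h1 h3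
  refine ⟨pr (gt D L w), ?_, ?_⟩
  · refine pr_supp (b := 2 * j + 2 * N + 1) (by omega) (gt_supp D L (supp_mono ?_ hw))
    omega
  · rw [← proj_chain D hD hL h2 hDD, hw', proj_incl D hD hL h2]

variable (hn : ∀ i, 0 < n i) {J : Ideal A} (hJ : AdmJ m J)

omit hX hL h2 in
include hJ in
lemma DU_smul_zero (L : ℕ) {r : A} (hr : ∀ j ∈ J, r * j = 0) (u : UU A n) :
    DU D L (r • u) = 0 := by
  rw [map_smul]
  funext p
  have := DU_ent D hD hDD hJ L (a := ⊤) (u := u) (fun _ => trivial) p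
  rw [Ideal.mul_top] at this
  exact hr _ this

include hn hJ

/-- The general criterion. -/
theorem critG (g : A) (hg : g ∈ Submodule.annihilator J) (c : Ideal A)
    (hc : ∀ φ : (Submodule.annihilator J : Ideal A) →ₗ[A] (A ⧸ J),
      φ ⟨g, hg⟩ ∈ Ideal.map (Ideal.Quotient.mk J) c) : g ∈ J * (c ⊔ J) := by
  classical
  let p0 : Idx n := ⟨(0 + L + N) + L + N, ⟨0, hn _⟩⟩
  let e : UU A n := fun p => if p = p0 then (1 : A) else 0
  have h1 : ∀ x : A, suppU (x • e) ((0 + L + N) + L + N) := by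
    intro x p hp
    change x * (if p = p0 then (1 : A) else 0) = 0
    rw [if_neg, mul_zero]
    rintro rfl
    exact absurd hp (Nat.lt_irrefl _)
  have hann : ∀ x : (Submodule.annihilator J : Ideal A), ∀ j ∈ J, (x : A) * j = 0 := by
    intro x j hj
    exact Submodule.mem_annihilator.1 x.2 j hj
  have hex : ∀ x : (Submodule.annihilator J : Ideal A), ∃ t : UU A n,
      suppU t (0 + L + N) ∧ DU D L t = (x : A) • e := by
    intro x
    exact uexact D hD hL h2 hDD hX _ (h1 x) (DU_smul_zero D hD hDD hJ L (hann x) _)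
  choose t ht ht' using hex
  have hcyc : ∀ s : UU A n, suppU s (0 + L + N) → DU D L s = 0 → ∀ p, s p ∈ J := by
    intro s hs hs' p
    obtain ⟨s', -, hs''⟩ := uexact D hD hL h2 hDD hX 0 hs hs'
    rw [← hs'']
    have := DU_ent D hD hDD hJ L (a := ⊤) (u := s') (fun _ => trivial) p
    rwa [Ideal.mul_top] at this
  have hsub : ∀ (s s' : UU A n), suppU s (0 + L + N) → suppU s' (0 + L + N) →
      suppU (s - s') (0 + L + N) := by
    intro s s' hs hs' p hp
    rw [Pi.sub_apply, hs p hp, hs' p hp, sub_zero]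
  let φ : Idx n → ((Submodule.annihilator J : Ideal A) →ₗ[A] (A ⧸ J)) := fun p =>
    { toFun := fun x => Ideal.Quotient.mk J (t x p)
      map_add' := by
        intro x y
        rw [← map_add, Ideal.Quotient.eq]
        refine hcyc (t (x + y) - (t x + t y)) (hsub _ _ (ht _) ?_) ?_ p
        · intro p hp
          rw [Pi.add_apply, ht x p hp, ht y p hp, add_zero]
        · rw [map_sub, map_add, ht', ht', ht', Submodule.coe_add, add_smul, sub_self]
      map_smul' := by
        intro r x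
        have : (RingHom.id A) r • (Ideal.Quotient.mk J (t x p)) =
            Ideal.Quotient.mk J (r * t x p) := by
          rw [RingHom.id_apply, Algebra.smul_def, map_mul]; rfl
        rw [this, Ideal.Quotient.eq]
        refine hcyc (t (r • x) - (r • t x)) (hsub _ _ (ht _) ?_) ?_ p
        · intro p hp
          rw [Pi.smul_apply, ht x p hp, smul_zero]
        · rw [map_sub, map_smul, ht', ht', smul_smul]
          exact sub_self _ }
  have h5 : ∀ p, t ⟨g, hg⟩ p ∈ c ⊔ J := by
    intro p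
    have h6 : Ideal.Quotient.mk J (t ⟨g, hg⟩ p) ∈ Ideal.map (Ideal.Quotient.mk J) c := hc (φ p)
    rw [← Ideal.mem_comap, Ideal.comap_map_of_surjective _ Ideal.Quotient.mk_surjective] at h6
    have h7 : Ideal.comap (Ideal.Quotient.mk J) ⊥ = J := by
      ext x
      rw [Ideal.mem_comap, Ideal.mem_bot, Ideal.Quotient.eq_zero_iff_mem]
    rwa [h7] at h6
  have h6 : g = DU D L (t ⟨g, hg⟩) p0 := by
    rw [ht']
    change g = g * (if p0 = p0 then (1 : A) else 0)
    rw [if_pos rfl, mul_one]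
  rw [h6]
  exact DU_ent D hD hDD hJ L h5 p0

end

end Pool.Agent.Tach
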