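import Pool.Agent.Tach.Total

set_option autoImplicit false

/-! The consequence in degree zero. -/

namespace Pool.Agent.Tach

open Finset

variable {A : Type} [CommRing A] {n : ℕ → ℕ} (D : Idx n → Idx n → A)

theorem critW {m : Ideal A} (hD : ∀ p q, D p q ∈ m) {L : ℕ} (hL : m ^ L = ⊥) (h2 : (2 : A) = 0)
    (hDD : ∀ (p : Idx n) (r : Fin (n (p.1 + 1 + 1))),
      ∑ s : Fin (n (p.1 + 1)), D p ⟨p.1 + 1, s⟩ * D ⟨p.1 + 1, s⟩ ⟨p.1 + 1 + 1, r⟩ = 0)
    (hX : ∀ b, 1 ≤ b → ∀ z : VV A n, homog z b → bd D z = 0 →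
      ∃ w : VV A n, homog w (b + 1) ∧ bd D w = z)
    {J : Ideal A} (hJ : AdmJ m J) (v : Fin (n 0) → A) (x : A) (w1 : VV A n)
    (hw1h : homog w1 1) (hw1 : bd D w1 = fun p q => x * ext 0 v p * ext 0 v q)
    (r : Fin (n 0)) : x * v r ^ 2 ∈ J := by
  let z : VV A n := fun p q => x * ext 0 v p * ext 0 v q
  change bd D w1 = z at hw1
  have hz0 : ∀ p q : Idx n, p.1 ≠ 0 ∨ q.1 ≠ 0 → z p q = 0 := by
    intro p q h
    change x * ext 0 v p * ext 0 v q = 0
    rcases h with h | h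
    · rw [ext_ne v h, mul_zero, zero_mul]
    · rw [ext_ne v h, mul_zero]
  have hbd0 : ∀ y : VV A n, (∀ p q : Idx n, p.1 ≠ 0 ∨ q.1 ≠ 0 → y p q = 0) → bd D y = 0 := by
    intro y hy
    funext p q
    rw [bd_apply, sum_eq_zero, sum_eq_zero, add_zero]
    · rfl
    · intro s _
      rw [hy _ _ (Or.inr (by simp)), mul_zero]
    · intro s _
      rw [hy _ _ (Or.inl (by simp)), mul_zero]
  have hbz : bd D z = 0 := hbd0 z hz0
  have hsz : ss z = 0 := by
    funext p q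
    rw [ss_apply]
    change x * ext 0 v p * ext 0 v q + x * ext 0 v q * ext 0 v p = 0
    have := add_self2 h2 (x * ext 0 v p * ext 0 v q)
    linear_combination this
  have hgz : gt D L z = z := by
    have h1 := gt_left D hD hL h2 z
    rwa [hbd0 (hop z) (fun p q h => by
      rw [hop_apply]
      split_ifs
      · exact hz0 q p h.symm
      · rfl), add_zero] at h1
  have hzz := vadd_self h2 z
  have hsupp : supp (z + Dt D w1) 1 := by
    intro p q hpq
    rw [Dt_apply, hw1, ← add_assoc, hzz, zero_add, ss_apply, hw1h _ _ (by omega),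
      hw1h _ _ (by omega), add_zero]
  have hcyc : Dt D (z + Dt D w1) = 0 := by
    rw [map_add, Dt_Dt D h2 hDD, add_zero, Dt_apply, hbz, hsz, add_zero]
  obtain ⟨W, -, hW⟩ := DX D h2 hDD hX (b := 1) le_rfl hsupp hcyc
  have h5 : Dt D (W + w1) = z := by
    rw [map_add, hW, add_assoc, vadd_self h2, add_zero]
  have h6 : DU D L (pr (gt D L (W + w1))) = pr z := by
    rw [← proj_chain D hD hL h2 hDD, h5, hgz]
  have h7 := DU_ent D hD hDD hJ L (a := ⊤) (u := pr (gt D L (W + w1))) (fun _ => trivial) ⟨0, r⟩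
  rw [h6, Ideal.mul_top, pr_apply] at h7
  have h8 : z ⟨0, r⟩ ⟨0, r⟩ = x * v r ^ 2 := by
    change x * ext 0 v ⟨0, r⟩ * ext 0 v ⟨0, r⟩ = _
    rw [ext_self]
    ring
  rwa [h8] at h7

end Pool.Agent.Tach
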