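import Pool.Agent.Tach.Resolution

set_option autoImplicit false

/-! Exactness of `Hom(P, A)` and of `P ⊗ D(A)` from the vanishing of `Ext(D(A), A)`. -/

namespace Pool.Agent.Tach

open Finset CategoryTheory

lemma proj_pi (R A : Type) [CommRing R] [CommRing A] [Algebra R A] [Module.Projective R A]
    (n : ℕ) : Module.Projective R (Fin n → A) :=
  Module.Projective.of_equiv (DFinsupp.linearEquivFunOnFintype (R := R) (ι := Fin n)
    (M := fun _ => A))

section ext

variable {R A : Type} [CommRing R] [CommRing A] [Algebra R A] [Module.Projective R A]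
  [IsLocalRing A] [IsNoetherianRing A]
  {M : Type} [AddCommGroup M] [Module A M] [Module R M] [IsScalarTower R A M]
  [CategoryTheory.HasExt.{1} (ModuleCat.{0} R)] (s : Stg A) (π : (Fin s.n → A) →ₗ[A] M)
  (hπ : Function.Surjective π) (hs : s.W = LinearMap.ker π) {N : ℕ}
  (hN : ∀ i, N ≤ i → Subsingleton (Abelian.Ext.{1} (ModuleCat.of R M) (ModuleCat.of R A) i))

include hπ hs hN in
lemma ext_W (i : ℕ) : ∀ j, 1 ≤ j → N ≤ i + 1 + j →
    Subsingleton (Abelian.Ext.{1} (ModuleCat.of R ↥(stg s i).W) (ModuleCat.of R A) j) := by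
  induction i with
  | zero =>
    intro j hj hNj
    have := proj_pi R A s.n
    refine ext_shift (P := Fin s.n → A) (Y := M) (s.W.subtype.restrictScalars R)
      (π.restrictScalars R) (Submodule.injective_subtype _) hπ ?_ hj (hN _ (by omega))
    intro x
    constructor
    · intro hx
      exact ⟨⟨x, by rw [hs]; exact hx⟩, rfl⟩
    · rintro ⟨y, rfl⟩
      exact hs.le y.2
  | succ i ih =>
    intro j hj hNj
    have := proj_pi R A (rk s (i + 1))
    refine ext_shift (P := Fin (rk s (i + 1)) → A) (Y := ↥(stg s i).W)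
      ((stg s (i + 1)).W.subtype.restrictScalars R)
      ((stg s i).pi.restrictScalars R) (Submodule.injective_subtype _) (stg s i).pi_surj ?_ hj
      (ih (1 + j) (by omega) (by omega))
    intro x
    constructor
    · intro hx
      exact ⟨⟨x, hx⟩, rfl⟩
    · rintro ⟨y, rfl⟩
      exact y.2

include hπ hs hN in
lemma ext_stage (i : ℕ) (hi : N ≤ i + 1) (φ : ↥(stg s i).W →ₗ[R] A) :
    ∃ ψ : (Fin (rk s i) → A) →ₗ[R] A, ∀ x : ↥(stg s i).W, ψ (x : Fin (rk s i) → A) = φ x := by
  rcases i with _ | i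
  · refine ext_extend (P := Fin s.n → A) (Y := M) (s.W.subtype.restrictScalars R)
      (π.restrictScalars R) (Submodule.injective_subtype _) hπ ?_ (hN _ (by omega)) φ
    intro x
    constructor
    · intro hx
      exact ⟨⟨x, by rw [hs]; exact hx⟩, rfl⟩
    · rintro ⟨y, rfl⟩
      exact hs.le y.2
  · refine ext_extend (P := Fin (rk s (i + 1)) → A) (Y := ↥(stg s i).W)
      ((stg s (i + 1)).W.subtype.restrictScalars R)
      ((stg s i).pi.restrictScalars R) (Submodule.injective_subtype _) (stg s i).pi_surj ?_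
      (ext_W s π hπ hs hN i (1 + 0) (by omega) (by omega)) φ
    intro x
    constructor
    · intro hx
      exact ⟨⟨x, hx⟩, rfl⟩
    · rintro ⟨y, rfl⟩
      exact y.2

include hπ hs hN in
/-- Exactness of `Hom(P, A)`. -/
lemma hom_exact (hRA : Function.Surjective (algebraMap R A)) (i : ℕ) (hi : N ≤ i + 1)
    (φ : (Fin (rk s (i + 1)) → A) →ₗ[A] A) (hφ : ∀ y, φ (df s (i + 1) y) = 0) :
    ∃ ψ : (Fin (rk s i) → A) →ₗ[A] A, ∀ x, φ x = ψ (df s i x) := by
  have h1 : LinearMap.ker (stg s i).pi ≤ LinearMap.ker φ := by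
    intro x hx
    obtain ⟨y, rfl⟩ := (df_range s (i + 1) x).1 hx
    exact hφ y
  let e := (stg s i).pi.quotKerEquivOfSurjective (stg s i).pi_surj
  let φ' : ↥(stg s i).W →ₗ[A] A := (LinearMap.ker (stg s i).pi).liftQ φ h1 ∘ₗ e.symm.toLinearMap
  have h2 : ∀ x, φ' ((stg s i).pi x) = φ x := by
    intro x
    change (LinearMap.ker (stg s i).pi).liftQ φ h1 (e.symm ((stg s i).pi x)) = φ x
    have : e.symm ((stg s i).pi x) = Submodule.Quotient.mk x := by
      rw [LinearEquiv.symm_apply_eq]
      rfl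
    rw [this]
    rfl
  obtain ⟨ψ, hψ⟩ := ext_stage s π hπ hs hN i hi (φ'.restrictScalars R)
  refine ⟨⟨ψ.toAddHom, ?_⟩, fun x => ?_⟩
  · intro a x
    obtain ⟨r, rfl⟩ := hRA a
    have e1 : (algebraMap R A r) • x = r • x := algebraMap_smul A r x
    change ψ ((algebraMap R A r) • x) = algebraMap R A r * ψ x
    rw [e1, map_smul, Algebra.smul_def]
  · rw [← h2]
    exact (hψ ((stg s i).pi x)).symm

include hπ hs hN in
/-- The same, in matrix form. -/
lemma mat_exact (hRA : Function.Surjective (algebraMap R A)) (i : ℕ) (hi : N ≤ i + 1)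
    (y : Fin (rk s (i + 1)) → A)
    (hy : ∀ t : Fin (rk s (i + 1 + 1)), ∑ r, y r * Dm s ⟨i + 1, r⟩ ⟨i + 1 + 1, t⟩ = 0) :
    ∃ z : Fin (rk s i) → A, ∀ r, y r = ∑ q, z q * Dm s ⟨i, q⟩ ⟨i + 1, r⟩ := by
  classical
  let φ : (Fin (rk s (i + 1)) → A) →ₗ[A] A :=
    { toFun := fun x => ∑ r, y r * x r
      map_add' := by
        intro x x'
        simp only [Pi.add_apply, mul_add, sum_add_distrib]
      map_smul' := by
        intro c x
        simp only [Pi.smul_apply, smul_eq_mul, mul_sum, RingHom.id_apply]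
        exact sum_congr rfl fun r _ => by ring }
  have hφ : ∀ x, φ (df s (i + 1) x) = 0 := by
    intro x
    change ∑ r, y r * df s (i + 1) x r = 0
    have h1 : ∀ r, df s (i + 1) x r = ∑ t, Dm s ⟨i + 1, r⟩ ⟨i + 1 + 1, t⟩ * x t := fun r =>
      (Dm_sum s ⟨i + 1, r⟩ x).symm
    simp only [h1, mul_sum]
    rw [sum_comm]
    refine sum_eq_zero fun t _ => ?_
    have := congrArg (· * x t) (hy t)
    simp only [zero_mul, sum_mul] at this
    rw [← this]
    exact sum_congr rfl fun r _ => by ring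
  obtain ⟨ψ, hψ⟩ := hom_exact s π hπ hs hN hRA i hi φ hφ
  refine ⟨fun q => ψ (Pi.single q 1), fun r => ?_⟩
  have h1 : φ (Pi.single r 1) = y r := by
    change ∑ r', y r' * (Pi.single r (1 : A) : Fin (rk s (i + 1)) → A) r' = y r
    rw [sum_eq_single r]
    · simp
    · intro b _ hb
      simp [hb]
    · intro h; exact absurd (mem_univ r) h
  rw [← h1, hψ]
  have h2 : df s i (Pi.single r 1) = ∑ q, Dm s ⟨i, q⟩ ⟨i + 1, r⟩ •
      (Pi.single q (1 : A) : Fin (rk s i) → A) := by
    funext j
    rw [Finset.sum_apply, sum_eq_single j]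
    · rw [Pi.smul_apply, Pi.single_eq_same, smul_eq_mul, mul_one]
      exact (Dm_apply s ⟨i, j⟩ r).symm
    · intro b _ hb
      simp [hb.symm]
    · intro hj; exact absurd (mem_univ j) hj
  rw [h2, map_sum]
  refine sum_congr rfl fun q _ => ?_
  rw [map_smul, smul_eq_mul, mul_comm]

end ext

section dual

variable {k A M : Type} [Field k] [CommRing A] [Algebra k A] [AddCommGroup M] [Module A M]
  [Module k M] [IsScalarTower k A M] (e : M ≃ₗ[k] Module.Dual k A)
  (he : ∀ (a : A) (m : M) (x : A), e (a • m) x = e m (x * a))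

omit [IsScalarTower k A M] in
include he in
/-- dualisation of exactness -/
lemma dualize {a b c : ℕ} (X : Fin a → Fin b → A) (Y : Fin b → Fin c → A)
    (hex : ∀ y : Fin b → A, (∀ t, ∑ r, y r * Y r t = 0) →
      ∃ z : Fin a → A, ∀ r, y r = ∑ q, z q * X q r)
    (ξ : Fin b → M) (hξ : ∀ q, ∑ r, X q r • ξ r = 0) :
    ∃ η : Fin c → M, ∀ r, ξ r = ∑ t, Y r t • η t := by
  classical
  let f : (Fin b → A) →ₗ[k] k := ∑ r, (e (ξ r)) ∘ₗ LinearMap.proj r
  have hf : ∀ y, f y = ∑ r, e (ξ r) (y r) := by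
    intro y
    simp only [f, LinearMap.sum_apply]
    rfl
  let tr : (Fin b → A) →ₗ[k] (Fin c → A) :=
    { toFun := fun y t => ∑ r, y r * Y r t
      map_add' := by
        intro x y
        funext t
        simp only [Pi.add_apply, add_mul, sum_add_distrib]
      map_smul' := by
        intro c x
        funext t
        simp only [Pi.smul_apply, smul_sum, RingHom.id_apply, smul_mul_assoc] }
  have h1 : f ∈ LinearMap.range tr.dualMap := by
    rw [LinearMap.range_dualMap_eq_dualAnnihilator_ker, Submodule.mem_dualAnnihilator]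
    intro y hy
    obtain ⟨z, hz⟩ := hex y fun t => congrFun (LinearMap.mem_ker.1 hy) t
    rw [hf]
    simp only [hz, map_sum]
    rw [sum_comm]
    refine sum_eq_zero fun q _ => ?_
    have h2 : ∑ r, e (ξ r) (z q * X q r) = e (∑ r, X q r • ξ r) (z q) := by
      rw [map_sum, LinearMap.sum_apply]
      exact sum_congr rfl fun r _ => (he _ _ _).symm
    rw [h2, hξ, map_zero, LinearMap.zero_apply]
  obtain ⟨g, hg⟩ := h1
  refine ⟨fun t => e.symm (g ∘ₗ LinearMap.single k (fun _ => A) t), fun r => ?_⟩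
  apply e.injective
  apply LinearMap.ext
  intro x
  rw [map_sum, LinearMap.sum_apply]
  have h3 : ∀ t, e (Y r t • e.symm (g ∘ₗ LinearMap.single k (fun _ => A) t)) x =
      g (Pi.single t (x * Y r t)) := by
    intro t
    rw [he, LinearEquiv.apply_symm_apply]
    rfl
  simp only [h3]
  rw [← map_sum]
  have h4 : (∑ t, (Pi.single t (x * Y r t) : Fin c → A)) = tr (Pi.single r x) := by
    funext t
    rw [Finset.sum_apply, sum_eq_single t]
    · rw [Pi.single_eq_same]
      change _ = ∑ r', (Pi.single r x : Fin b → A) r' * Y r' t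
      rw [sum_eq_single r]
      · rw [Pi.single_eq_same]
      · intro b _ hb
        simp [hb]
      · intro h; exact absurd (mem_univ r) h
    · intro b _ hb
      simp [hb.symm]
    · intro h; exact absurd (mem_univ t) h
  rw [h4]
  have h5 : g (tr (Pi.single r x)) = f (Pi.single r x) := congrArg (fun u => u (Pi.single r x)) hg
  rw [h5, hf, sum_eq_single r]
  · rw [Pi.single_eq_same]
  · intro b _ hb
    simp [hb]
  · intro h; exact absurd (mem_univ r) h

end dual

end Pool.Agent.Tach
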