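import Pool.Agent.Tach.Pert

set_option autoImplicit false

/-! Exactness of the total operator and its consequences for the diagonal part. -/

namespace Pool.Agent.Tach

open Finset

variable {A : Type} [CommRing A] {n : ℕ → ℕ} (D : Idx n → Idx n → A)

/-- supported in total degree at least `b` -/
def supp (z : VV A n) (b : ℕ) : Prop := ∀ p q : Idx n, p.1 + q.1 < b → z p q = 0

/-- supported in total degree exactly `b` -/
def homog (z : VV A n) (b : ℕ) : Prop := ∀ p q : Idx n, p.1 + q.1 ≠ b → z p q = 0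

/-- supported in degree at least `b` -/
def suppU (u : UU A n) (b : ℕ) : Prop := ∀ p : Idx n, p.1 < b → u p = 0

lemma supp_mono {z : VV A n} {b c : ℕ} (h : b ≤ c) (hz : supp z c) : supp z b :=
  fun p q hpq => hz p q (lt_of_lt_of_le hpq h)

lemma bd_supp {z : VV A n} {b : ℕ} (hz : supp z (b + 1)) : supp (bd D z) b := by
  intro p q hpq
  rw [bd_apply, sum_eq_zero, sum_eq_zero, add_zero]
  · intro s _
    rw [hz _ _ (by dsimp; omega), mul_zero]
  · intro s _
    rw [hz _ _ (by dsimp; omega), mul_zero]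

lemma hop_supp {z : VV A n} {b : ℕ} (hz : supp z b) : supp (hop z) b := by
  intro p q hpq
  rw [hop_apply]
  split_ifs
  · exact hz _ _ (by omega)
  · rfl

lemma ss_supp {z : VV A n} {b : ℕ} (hz : supp z b) : supp (ss z) b := by
  intro p q hpq
  rw [ss_apply, hz _ _ hpq, hz _ _ (by omega), add_zero]

lemma hb_pow_supp (k : ℕ) {z : VV A n} {b : ℕ} (hz : supp z (b + k)) :
    supp (((hop * bd D) ^ k : Module.End A (VV A n)) z) b := by
  induction k generalizing b with
  | zero => simpa using hz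
  | succ k ih =>
    rw [pow_succ' (hop * bd D) k, Module.End.mul_apply, Module.End.mul_apply]
    refine hop_supp (bd_supp D (ih ?_))
    convert hz using 1
    omega

lemma bh_pow_supp (k : ℕ) {z : VV A n} {b : ℕ} (hz : supp z (b + k)) :
    supp (((bd D * hop) ^ k : Module.End A (VV A n)) z) b := by
  induction k generalizing b with
  | zero => simpa using hz
  | succ k ih =>
    rw [pow_succ' (bd D * hop) k, Module.End.mul_apply, Module.End.mul_apply]
    refine bd_supp D (hop_supp (ih ?_))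
    convert hz using 1
    omega

lemma gs_supp (L : ℕ) {z : VV A n} {b : ℕ} (hz : supp z (b + L)) : supp (gs D L z) b := by
  intro p q hpq
  rw [gs, LinearMap.sum_apply, Finset.sum_apply, Finset.sum_apply]
  refine sum_eq_zero fun k hk => hb_pow_supp D k (supp_mono ?_ hz) p q hpq
  have := mem_range.1 hk
  omega

lemma gt_supp (L : ℕ) {z : VV A n} {b : ℕ} (hz : supp z (b + L)) : supp (gt D L z) b := by
  intro p q hpq
  rw [gt, LinearMap.sum_apply, Finset.sum_apply, Finset.sum_apply]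
  refine sum_eq_zero fun k hk => bh_pow_supp D k (supp_mono ?_ hz) p q hpq
  have := mem_range.1 hk
  omega

lemma dg_supp {u : UU A n} {j : ℕ} (hu : suppU u j) : supp (dg u) (2 * j) := by
  intro p q hpq
  rw [dg_apply]
  split_ifs with h
  · subst h
    exact hu p (by omega)
  · rfl

lemma pr_supp {z : VV A n} {j b : ℕ} (hb : 2 * j ≤ b) (hz : supp z b) : suppU (pr z) j := by
  intro p hp
  rw [pr_apply]
  exact hz p p (by omega)

section DX

variable (h2 : (2 : A) = 0)
  (hDD : ∀ (p : Idx n) (r : Fin (n (p.1 + 1 + 1))),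
    ∑ s : Fin (n (p.1 + 1)), D p ⟨p.1 + 1, s⟩ * D ⟨p.1 + 1, s⟩ ⟨p.1 + 1 + 1, r⟩ = 0)

include h2 hDD in
lemma Dt_Dt (z : VV A n) : Dt D (Dt D z) = 0 := by
  rw [Dt_apply, Dt_apply, map_add, map_add, bd_bd D hDD h2, bd_ss, zero_add]
  have : ss (ss z) = 0 := congrArg (fun f : Module.End A (VV A n) => f z) (ss_ss h2)
  rw [this, add_zero]
  exact vadd_self h2 _

/-- `Dt` at `(p,q)` only depends on the entries of total degree at most `p.1 + q.1 + 1`. -/
lemma Dt_local {z z' : VV A n} {p q : Idx n}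
    (h : ∀ p' q' : Idx n, p'.1 + q'.1 ≤ p.1 + q.1 + 1 → z p' q' = z' p' q') :
    Dt D z p q = Dt D z' p q := by
  rw [Dt_apply, Dt_apply, Pi.add_apply, Pi.add_apply, Pi.add_apply, Pi.add_apply, bd_apply,
    bd_apply, ss_apply, ss_apply, h p q (by omega), h q p (by omega)]
  congr 2
  · refine sum_congr rfl fun s _ => ?_
    rw [h _ _ (by dsimp; omega)]
  · refine sum_congr rfl fun s _ => ?_
    rw [h _ _ (by dsimp; omega)]

variable {N : ℕ} (hX : ∀ b, N ≤ b → ∀ z : VV A n, homog z b → bd D z = 0 →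
  ∃ w : VV A n, homog w (b + 1) ∧ bd D w = z)

include h2 hDD hX in
lemma step {c : ℕ} (hc : N ≤ c) {z : VV A n} (hz : supp z c) (hz' : Dt D z = 0) :
    ∃ w : VV A n, homog w (c + 1) ∧ supp (z + Dt D w) (c + 1) ∧ Dt D (z + Dt D w) = 0 := by
  let zc : VV A n := fun p q => if p.1 + q.1 = c then z p q else 0
  have h1 : homog zc c := fun p q h => if_neg h
  have h3 : bd D zc = 0 := by
    funext p q
    by_cases h : p.1 + q.1 + 1 = c
    · have e1 : bd D zc p q = bd D z p q := by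
        rw [bd_apply, bd_apply]
        congr 1
        · refine sum_congr rfl fun s _ => ?_
          change _ * (if _ then _ else _) = _
          rw [if_pos (by dsimp; omega)]
        · refine sum_congr rfl fun s _ => ?_
          change _ * (if _ then _ else _) = _
          rw [if_pos (by dsimp; omega)]
      have e2 : Dt D z p q = 0 := by rw [hz']; rfl
      rw [Dt_apply, Pi.add_apply, Pi.add_apply, ss_supp hz p q (by omega), add_zero] at e2
      rw [e1, e2]; rfl
    · rw [bd_apply, sum_eq_zero, sum_eq_zero, add_zero]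
      · rfl
      · intro s _
        change _ * (if _ then _ else _) = _
        rw [if_neg (by dsimp; omega), mul_zero]
      · intro s _
        change _ * (if _ then _ else _) = _
        rw [if_neg (by dsimp; omega), mul_zero]
  obtain ⟨w, hw, hw'⟩ := hX c hc zc h1 h3
  refine ⟨w, hw, ?_, ?_⟩
  · intro p q hpq
    rw [Dt_apply, Pi.add_apply, Pi.add_apply, Pi.add_apply, Pi.add_apply, hw', ss_apply,
      hw p q (by omega), hw q p (by omega), add_zero, add_zero]
    change z p q + (if p.1 + q.1 = c then z p q else 0) = 0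
    split_ifs with h
    · exact add_self2 h2 _
    · rw [hz p q (by omega), add_zero]
  · rw [map_add, hz', Dt_Dt D h2 hDD, add_zero]

/-- the cycles supported in degree at least `c` -/
abbrev Cyc (c : ℕ) := {z : VV A n // supp z c ∧ Dt D z = 0}

/-- the recursion -/
noncomputable def nxt (w : ∀ c, Cyc D c → VV A n)
    (hw : ∀ c (z : Cyc D c), N ≤ c →
      supp (z.1 + Dt D (w c z)) (c + 1) ∧ Dt D (z.1 + Dt D (w c z)) = 0)
    (b : ℕ) (hb : N ≤ b) (z : Cyc D b) : (k : ℕ) → Cyc D (b + k)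
  | 0 => z
  | k + 1 =>
    let y := nxt w hw b hb z k
    ⟨y.1 + Dt D (w (b + k) y), hw (b + k) y (by omega)⟩

include h2 hDD hX in
/-- Cycles of `∂ + (1+σ)` supported in high degree are boundaries. -/
lemma DX {b : ℕ} (hb : N ≤ b) {z : VV A n} (hz : supp z b) (hz' : Dt D z = 0) :
    ∃ w : VV A n, supp w (b + 1) ∧ Dt D w = z := by
  classical
  have hst : ∀ c (z : Cyc D c), ∃ w : VV A n, N ≤ c → (homog w (c + 1) ∧
      supp (z.1 + Dt D w) (c + 1) ∧ Dt D (z.1 + Dt D w) = 0) := by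
    intro c z
    by_cases hc : N ≤ c
    · obtain ⟨w, hw⟩ := step D h2 hDD hX hc z.2.1 z.2.2
      exact ⟨w, fun _ => hw⟩
    · exact ⟨0, fun h => absurd h hc⟩
  choose W hW using hst
  let Z := nxt D (N := N) W (fun c z hc => (hW c z hc).2) b hb ⟨z, hz, hz'⟩
  let w : ℕ → VV A n := fun k => W (b + k) (Z k)
  have hw : ∀ k, homog (w k) (b + k + 1) := fun k => (hW (b + k) (Z k) (by omega)).1
  have hZ : ∀ k, (Z k).1 = z + ∑ j ∈ range k, Dt D (w j) := by
    intro k
    induction k with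
    | zero => simp only [range_zero, sum_empty, add_zero]; rfl
    | succ k ih =>
      have : (Z (k + 1)).1 = (Z k).1 + Dt D (w k) := rfl
      rw [this, ih, sum_range_succ, add_assoc]
  refine ⟨fun p q => if b + 1 ≤ p.1 + q.1 then w (p.1 + q.1 - b - 1) p q else 0, ?_, ?_⟩
  · intro p q hpq
    exact if_neg (by omega)
  · funext p q
    have h1 : (Z (p.1 + q.1 + 1)).1 p q = 0 := (Z (p.1 + q.1 + 1)).2.1 p q (by omega)
    rw [hZ, ← map_sum, Pi.add_apply, Pi.add_apply] at h1
    have h3 : z p q = Dt D (∑ j ∈ range (p.1 + q.1 + 1), w j) p q := by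
      have := add_self2 h2 (z p q)
      linear_combination this - h1
    rw [h3]
    refine Dt_local D fun p' q' hpq => ?_
    rw [Finset.sum_apply, Finset.sum_apply]
    split_ifs with h
    · rw [sum_eq_single (p'.1 + q'.1 - b - 1)]
      · intro j _ hj
        exact hw j p' q' (by omega)
      · intro hj
        exact absurd (mem_range.2 (by omega)) hj
    · exact (sum_eq_zero fun j _ => hw j p' q' (by omega)).symm

end DX

section DUent

variable {m : Ideal A} (hD : ∀ p q, D p q ∈ m)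

lemma sw_dg (u : UU A n) : sw (dg u) = dg u := by
  funext p q
  rw [sw_apply, dg_apply, dg_apply]
  by_cases h : p = q
  · subst h; rfl
  · rw [if_neg h, if_neg (fun e => h e.symm)]

lemma hop_bd_dg (u : UU A n) : hop (bd D (dg u)) = lop D (dg u) := by
  funext p q
  rw [hop_apply]
  by_cases h : lt p q
  · rw [if_pos h, bd_def, Pi.add_apply, Pi.add_apply]
    have h1 : lop D (dg u) q p = 0 := by
      rw [lop_apply]
      refine sum_eq_zero fun s _ => ?_
      rw [dg_apply, if_neg, mul_zero]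
      rintro rfl
      unfold lt at h
      dsimp at h
      omega
    rw [h1, zero_add, sw_dg]
    rfl
  · rw [if_neg h, lop_apply, sum_eq_zero]
    intro s _
    rw [dg_apply, if_neg, mul_zero]
    rintro rfl
    apply h
    left
    dsimp
    omega

lemma pr_first (hDD : ∀ (p : Idx n) (r : Fin (n (p.1 + 1 + 1))),
    ∑ s : Fin (n (p.1 + 1)), D p ⟨p.1 + 1, s⟩ * D ⟨p.1 + 1, s⟩ ⟨p.1 + 1 + 1, r⟩ = 0)
    (u : UU A n) (p : Idx n) :
    pr (bd D (hop (bd D (dg u)))) p =
      ∑ s : Fin (n (p.1 + 1)), D p ⟨p.1 + 1, s⟩ ^ 2 * u ⟨p.1 + 1, s⟩ := by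
  rw [hop_bd_dg, pr_apply, bd_def, lop_lop D hDD, zero_add]
  change lop D (sw (lop D (dg u))) p p = _
  rw [lop_apply]
  refine sum_congr rfl fun s _ => ?_
  rw [sw_apply, lop_apply, sum_eq_single s]
  · rw [dg_apply, if_pos rfl]
    ring
  · intro t _ ht
    rw [dg_apply, if_neg, mul_zero]
    intro h
    apply ht
    simpa using h
  · intro h
    exact absurd (mem_univ s) h

/-- even part only -/
def ev (z : VV A n) : Prop := ∀ p q : Idx n, Odd (p.1 + q.1) → z p q = 0
/-- odd part only -/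
def od (z : VV A n) : Prop := ∀ p q : Idx n, Even (p.1 + q.1) → z p q = 0

lemma bd_ev {z : VV A n} (hz : ev z) : od (bd D z) := by
  intro p q hpq
  have h := Nat.even_iff.1 hpq
  rw [bd_apply, sum_eq_zero, sum_eq_zero, add_zero]
  · intro s _
    rw [hz _ _ (Nat.odd_iff.2 (by dsimp; omega)), mul_zero]
  · intro s _
    rw [hz _ _ (Nat.odd_iff.2 (by dsimp; omega)), mul_zero]

lemma bd_od {z : VV A n} (hz : od z) : ev (bd D z) := by
  intro p q hpq
  have h := Nat.odd_iff.1 hpq
  rw [bd_apply, sum_eq_zero, sum_eq_zero, add_zero]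
  · intro s _
    rw [hz _ _ (Nat.even_iff.2 (by dsimp; omega)), mul_zero]
  · intro s _
    rw [hz _ _ (Nat.even_iff.2 (by dsimp; omega)), mul_zero]

lemma hop_ev {z : VV A n} (hz : ev z) : ev (hop z) := by
  intro p q hpq
  rw [hop_apply]
  split_ifs
  · exact hz _ _ (by rwa [add_comm])
  · rfl

lemma hop_od {z : VV A n} (hz : od z) : od (hop z) := by
  intro p q hpq
  rw [hop_apply]
  split_ifs
  · exact hz _ _ (by rwa [add_comm])
  · rfl

lemma dg_ev (u : UU A n) : ev (dg u) := by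
  intro p q hpq
  rw [dg_apply, if_neg]
  rintro rfl
  exact (Nat.not_odd_iff_even.2 ⟨p.1, rfl⟩) hpq

lemma pow_ev (u : UU A n) (k : ℕ) :
    (Even k → ev (((hop * bd D) ^ k : Module.End A (VV A n)) (dg u))) ∧
    (Odd k → od (((hop * bd D) ^ k : Module.End A (VV A n)) (dg u))) := by
  induction k with
  | zero =>
    refine ⟨fun _ => by simpa using dg_ev u, fun h => absurd h (by decide)⟩
  | succ k ih =>
    rw [pow_succ' (hop * bd D) k, Module.End.mul_apply, Module.End.mul_apply]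
    refine ⟨fun h => ?_, fun h => ?_⟩
    · exact hop_ev (bd_od D (ih.2 (by simpa [Nat.even_add_one] using h)))
    · exact hop_od (bd_ev D (ih.1 (by simpa [Nat.odd_add_one] using h)))

lemma pr_od {z : VV A n} (hz : od z) : pr z = 0 := by
  funext p
  rw [pr_apply]
  exact hz p p ⟨p.1, rfl⟩

/-- the second term of the transferred differential -/
lemma pr_third (hDD : ∀ (p : Idx n) (r : Fin (n (p.1 + 1 + 1))),
    ∑ s : Fin (n (p.1 + 1)), D p ⟨p.1 + 1, s⟩ * D ⟨p.1 + 1, s⟩ ⟨p.1 + 1 + 1, r⟩ = 0)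
    (u : UU A n) (p : Idx n) :
    pr (bd D (((hop * bd D) ^ 3 : Module.End A (VV A n)) (dg u))) p =
      ∑ r : Fin (n (p.1 + 1 + 1)), u ⟨p.1 + 1 + 1, r⟩ *
        ∑ s : Fin (n (p.1 + 1)), ∑ t : Fin (n (p.1 + 1)), if s < t then
          (D p ⟨p.1 + 1, s⟩ * D ⟨p.1 + 1, s⟩ ⟨p.1 + 1 + 1, r⟩) *
          (D p ⟨p.1 + 1, t⟩ * D ⟨p.1 + 1, t⟩ ⟨p.1 + 1 + 1, r⟩) else 0 := by
  have e3 : ((hop * bd D) ^ 3 : Module.End A (VV A n)) (dg u) =
      hop (bd D (hop (bd D (lop D (dg u))))) := by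
    rw [← hop_bd_dg]
    rfl
  set z1 := lop D (dg u) with hz1
  set z2 := hop (bd D z1) with hz2
  set z3 := hop (bd D z2) with hz3
  have h1 : ∀ (b : Idx n) (i : ℕ) (s : Fin (n (i + 1))), z1 b ⟨i + 1, s⟩ =
      if b.1 = i then D b ⟨i + 1, s⟩ * u ⟨i + 1, s⟩ else 0 := by
    intro b i s
    rw [hz1, lop_apply]
    split_ifs with h
    · subst h
      rw [sum_eq_single s]
      · rw [dg_apply, if_pos rfl]
      · intro t _ ht
        rw [dg_apply, if_neg, mul_zero]
        intro h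
        apply ht
        simpa using h
      · intro h
        exact absurd (mem_univ s) h
    · refine sum_eq_zero fun t _ => ?_
      rw [dg_apply, if_neg, mul_zero]
      intro h'
      apply h
      have := congrArg Sigma.fst h'
      dsimp at this
      omega
  have h2 : ∀ a b : Idx n, z2 a b = if lt a b ∧ a.1 = b.1 then
      ∑ s : Fin (n (a.1 + 1)), D a ⟨a.1 + 1, s⟩ * (D b ⟨a.1 + 1, s⟩ * u ⟨a.1 + 1, s⟩) else 0 := by
    intro a b
    rw [hz2, hop_apply, bd_def, hz1, lop_lop D hDD, zero_add, ← hz1]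
    by_cases hlt : lt a b
    · rw [if_pos hlt, sw_apply, lop_apply]
      by_cases hab : a.1 = b.1
      · rw [if_pos ⟨hlt, hab⟩]
        refine sum_congr rfl fun s _ => ?_
        rw [sw_apply, h1, if_pos hab.symm]
      · rw [if_neg (fun h => hab h.2)]
        refine sum_eq_zero fun s _ => ?_
        rw [sw_apply, h1, if_neg (fun h => hab h.symm), mul_zero]
    · rw [if_neg hlt, if_neg (fun h => hlt h.1)]
  have h3 : ∀ (a : Idx n) (s : Fin (n (a.1 + 1))), z3 a ⟨a.1 + 1, s⟩ =
      ∑ t : Fin (n (a.1 + 1)), D a ⟨a.1 + 1, t⟩ * z2 ⟨a.1 + 1, s⟩ ⟨a.1 + 1, t⟩ := by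
    intro a s
    have hlt : lt a ⟨a.1 + 1, s⟩ := Or.inl (Nat.lt_succ_self _)
    rw [hz3, hop_apply, if_pos hlt, bd_apply]
    have h4 : ∑ r : Fin (n (a.1 + 1 + 1)), D ⟨a.1 + 1, s⟩ ⟨a.1 + 1 + 1, r⟩ *
        z2 ⟨a.1 + 1 + 1, r⟩ a = 0 := by
      refine sum_eq_zero fun r _ => ?_
      rw [h2, if_neg, mul_zero]
      rintro ⟨-, h⟩
      dsimp at h
      omega
    exact (congrArg₂ (· + ·) h4 rfl).trans (zero_add _)
  have h3' : ∀ (a : Idx n) (s : Fin (n (a.1 + 1))), z3 ⟨a.1 + 1, s⟩ a = 0 := by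
    intro a s
    rw [hz3, hop_apply, if_neg]
    unfold lt
    dsimp
    omega
  rw [e3, pr_apply, bd_apply]
  have h5 : ∑ s : Fin (n (p.1 + 1)), D p ⟨p.1 + 1, s⟩ * z3 ⟨p.1 + 1, s⟩ p = 0 :=
    sum_eq_zero fun s _ => by rw [h3', mul_zero]
  rw [h5, zero_add]
  have h6 : ∀ s : Fin (n (p.1 + 1)), D p ⟨p.1 + 1, s⟩ * z3 p ⟨p.1 + 1, s⟩ =
      ∑ t : Fin (n (p.1 + 1)), ∑ r : Fin (n (p.1 + 1 + 1)), u ⟨p.1 + 1 + 1, r⟩ *
        if s < t then (D p ⟨p.1 + 1, s⟩ * D ⟨p.1 + 1, s⟩ ⟨p.1 + 1 + 1, r⟩) *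
          (D p ⟨p.1 + 1, t⟩ * D ⟨p.1 + 1, t⟩ ⟨p.1 + 1 + 1, r⟩) else 0 := by
    intro s
    rw [h3, mul_sum]
    refine sum_congr rfl fun t _ => ?_
    rw [h2]
    by_cases hst : s < t
    · rw [if_pos ⟨Or.inr ⟨rfl, hst⟩, rfl⟩, mul_sum, mul_sum]
      refine sum_congr rfl fun r _ => ?_
      rw [if_pos hst]
      ring
    · rw [if_neg, mul_zero, mul_zero]
      · symm
        refine sum_eq_zero fun r _ => ?_
        rw [if_neg hst, mul_zero]
      · rintro ⟨h, -⟩
        apply hst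
        unfold lt at h
        dsimp at h
        rcases h with h | h
        · omega
        · exact h.2
  rw [sum_congr rfl fun s _ => h6 s]
  rw [sum_congr rfl fun s _ => sum_comm, sum_comm]
  refine sum_congr rfl fun r _ => ?_
  rw [mul_sum]
  refine sum_congr rfl fun s _ => ?_
  rw [mul_sum]

/-- `J` contains the squares of the elements of `m`, the second elementary symmetric functions of
the terms of the relations of `m ^ 2`, and `m ^ 6`. -/
def AdmJ (m J : Ideal A) : Prop :=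
  (∀ x ∈ m, x ^ 2 ∈ J) ∧
  (∀ (N : ℕ) (x y : Fin N → A), (∀ i, x i ∈ m) → (∀ i, y i ∈ m) → ∑ i, x i * y i = 0 →
    ∑ i, ∑ j, (if i < j then (x i * y i) * (x j * y j) else 0) ∈ J) ∧
  m ^ 6 ≤ J

lemma admJ_of_four {m J : Ideal A} (hJ : ∀ x ∈ m, x ^ 2 ∈ J) (hJ4 : m ^ 4 ≤ J) : AdmJ m J := by
  refine ⟨hJ, fun N x y hx hy _ => ?_, (Ideal.pow_le_pow_right (by norm_num)).trans hJ4⟩
  refine Ideal.sum_mem _ fun i _ => Ideal.sum_mem _ fun j _ => ?_
  split_ifs
  · apply hJ4
    have h1 : ∀ i, x i * y i ∈ m ^ 2 := fun i => by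
      rw [pow_two]
      exact Ideal.mul_mem_mul (hx i) (hy i)
    have h2 := Ideal.mul_mem_mul (h1 i) (h1 j)
    rwa [← pow_add] at h2
  · exact Ideal.zero_mem _

include hD in
/-- The transferred differential has its entries in `J`. -/
lemma DU_ent (hDD : ∀ (p : Idx n) (r : Fin (n (p.1 + 1 + 1))),
    ∑ s : Fin (n (p.1 + 1)), D p ⟨p.1 + 1, s⟩ * D ⟨p.1 + 1, s⟩ ⟨p.1 + 1 + 1, r⟩ = 0)
    {J : Ideal A} (hJ' : AdmJ m J) (L : ℕ) {a : Ideal A}
    {u : UU A n} (hu : ∀ p, u p ∈ a) (p : Idx n) : DU D L u p ∈ J * a := by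
  obtain ⟨hJ, hJe, hJ6⟩ := hJ'
  rw [DU_apply, gs, LinearMap.sum_apply, map_sum, map_sum, Finset.sum_apply]
  refine Ideal.sum_mem _ fun k _ => ?_
  rcases Nat.even_or_odd k with hk | hk
  · rw [pr_od (bd_ev D ((pow_ev D u k).1 hk))]
    exact Ideal.zero_mem _
  · obtain ⟨j, rfl⟩ := hk
    rcases j with _ | _ | j
    · have : ((hop * bd D) ^ (2 * 0 + 1) : Module.End A (VV A n)) (dg u) = hop (bd D (dg u)) := by
        rw [mul_zero, zero_add, pow_one]; rfl
      rw [this, pr_first D hDD]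
      exact Ideal.sum_mem _ fun s _ => Ideal.mul_mem_mul (hJ _ (hD _ _)) (hu _)
    · change pr (bd D (((hop * bd D) ^ 3 : Module.End A (VV A n)) (dg u))) p ∈ J * a
      rw [pr_third D hDD]
      refine Ideal.sum_mem _ fun r _ => ?_
      rw [mul_comm (u _)]
      exact Ideal.mul_mem_mul (hJe _ _ _ (fun i => hD _ _) (fun i => hD _ _) (hDD p r)) (hu _)
    · have h1 : ∀ p q, dg u p q ∈ a := by
        intro p q
        rw [dg_apply]
        split_ifs
        · exact hu _
        · exact a.zero_mem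
      have h3 := bd_ent D hD (hb_pow_ent D hD h1 (2 * (j + 1 + 1) + 1)) p p
      rw [pr_apply]
      rw [← mul_assoc, ← pow_succ'] at h3
      refine Ideal.mul_mono_left ?_ h3
      refine le_trans ?_ hJ6
      exact Ideal.pow_le_pow_right (by omega)

end DUent

end Pool.Agent.Tach
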