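import Pool.Agent.Tach.Cor

set_option autoImplicit false

/-! Reduction of commutative algebras to local ones. -/

namespace Pool.Agent.Tach

open CategoryTheory

/-- the dual of `B` -/
def DB (k B : Type) [Field k] [CommRing B] [Algebra k B] : Type := Module.Dual k B

section db

variable {k A B : Type} [Field k] [CommRing A] [CommRing B] [Algebra k A] [Algebra k B]
  [Algebra A B] [IsScalarTower k A B]

noncomputable instance : AddCommGroup (DB k B) :=
  inferInstanceAs (AddCommGroup (Module.Dual k B))

noncomputable instance : Module k (DB k B) :=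
  inferInstanceAs (Module k (Module.Dual k B))

noncomputable instance instModB : Module B (DB k B) where
  smul b f := (show Module.Dual k B from f) ∘ₗ LinearMap.mulRight k b
  one_smul f := by
    apply LinearMap.ext
    intro x
    change (show Module.Dual k B from f) (x * 1) = (show Module.Dual k B from f) x
    rw [mul_one]
  mul_smul a b f := by
    apply LinearMap.ext
    intro x
    change (show Module.Dual k B from f) (x * (a * b)) = (show Module.Dual k B from f) (x * a * b)
    rw [mul_assoc]
  smul_zero a := rfl
  smul_add a f g := rfl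
  add_smul a b f := by
    apply LinearMap.ext
    intro x
    change (show Module.Dual k B from f) (x * (a + b)) =
      (show Module.Dual k B from f) (x * a) + (show Module.Dual k B from f) (x * b)
    rw [mul_add, map_add]
  zero_smul f := by
    apply LinearMap.ext
    intro x
    change (show Module.Dual k B from f) (x * 0) = 0
    rw [mul_zero, map_zero]

/-- identification -/
noncomputable def eDB (k B : Type) [Field k] [CommRing B] [Algebra k B] :
    DB k B ≃ₗ[k] Module.Dual k B := LinearEquiv.refl k (Module.Dual k B)

lemma eDB_smul (b : B) (f : DB k B) (x : B) : eDB k B (b • f) x = eDB k B f (x * b) := rfl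

instance : IsScalarTower k B (DB k B) := ⟨fun c b f => by
  apply (eDB k B).injective
  apply LinearMap.ext
  intro x
  rw [eDB_smul, map_smul, LinearMap.smul_apply, eDB_smul, mul_smul_comm, map_smul]⟩

variable (A) in
/-- restriction of scalars -/
@[reducible] noncomputable def instModA : Module A (DB k B) := Module.compHom _ (algebraMap A B)

end db

section ext

variable {k A B M : Type} [Field k] [CommRing A] [CommRing B] [Algebra k A] [Algebra k B]
  [Algebra A B] [IsScalarTower k A B] [AddCommGroup M] [Module A M]
  [Module k M] [IsScalarTower k A M] (e : M ≃ₗ[k] Module.Dual k A)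
  (he : ∀ (a : A) (m : M) (x : A), e (a • m) x = e m (x * a))
  [CategoryTheory.HasExt.{1} (ModuleCat.{0} A)]

omit [IsScalarTower k A M] in
include he in
lemma ext_local (s : B →ₗ[A] A) (hs : ∀ b, algebraMap A B (s b) = b) {i : ℕ}
    (h : Subsingleton (Abelian.Ext.{1} (ModuleCat.of A M) (ModuleCat.of A A) i)) :
    letI : Module A (DB k B) := instModA A
    Subsingleton (Abelian.Ext.{1} (ModuleCat.of A (DB k B)) (ModuleCat.of A B) i) := by
  let _ : Module A (DB k B) := instModA A
  have hsmul : ∀ (a : A) (f : DB k B), a • f = (algebraMap A B a) • f := fun a f => rfl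
  let tk : A →ₗ[k] B := (IsScalarTower.toAlgHom k A B).toLinearMap
  have htk : ∀ x, tk x = algebraMap A B x := fun x => rfl
  let sk : B →ₗ[k] A := s.restrictScalars k
  have hsk : ∀ x, sk x = s x := fun x => rfl
  let j : DB k B →ₗ[A] M :=
    { toFun := fun f => e.symm ((eDB k B f) ∘ₗ tk)
      map_add' := by
        intro f g
        rw [map_add, LinearMap.add_comp, map_add]
      map_smul' := by
        intro a f
        apply e.injective
        apply LinearMap.ext
        intro x
        rw [RingHom.id_apply, he, LinearEquiv.apply_symm_apply, LinearEquiv.apply_symm_apply,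
          LinearMap.comp_apply, LinearMap.comp_apply, hsmul, eDB_smul, htk, htk, RingHom.map_mul] }
  let p : M →ₗ[A] DB k B :=
    { toFun := fun m => (eDB k B).symm ((e m) ∘ₗ sk)
      map_add' := by
        intro f g
        rw [map_add, LinearMap.add_comp, map_add]
      map_smul' := by
        intro a m
        apply (eDB k B).injective
        apply LinearMap.ext
        intro x
        rw [RingHom.id_apply, hsmul, eDB_smul, LinearEquiv.apply_symm_apply,
          LinearEquiv.apply_symm_apply, LinearMap.comp_apply, LinearMap.comp_apply, he, hsk, hsk]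
        have h1 : x * algebraMap A B a = a • x := by rw [Algebra.smul_def, mul_comm]
        rw [h1, map_smul, smul_eq_mul, mul_comm] }
  refine ext_retract j p ?_ s (Algebra.linearMap A B) ?_ h
  · apply LinearMap.ext
    intro f
    apply (eDB k B).injective
    apply LinearMap.ext
    intro x
    change e (e.symm ((eDB k B f) ∘ₗ tk)) (sk x) = eDB k B f x
    rw [LinearEquiv.apply_symm_apply, LinearMap.comp_apply, hsk, htk, hs]
  · apply LinearMap.ext
    intro x
    exact hs x

end ext

section glob

variable {k A M : Type} [Field k] [CommRing A] [Algebra k A] [FiniteDimensional k A]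
  [AddCommGroup M] [Module A M]
  [Module k M] [IsScalarTower k A M] (e : M ≃ₗ[k] Module.Dual k A)
  (he : ∀ (a : A) (m : M) (x : A), e (a • m) x = e m (x * a))
  [CategoryTheory.HasExt.{1} (ModuleCat.{0} A)] (h2 : (2 : A) = 0)
  {N : ℕ} (hN : ∀ i, N ≤ i →
    Subsingleton (Abelian.Ext.{1} (ModuleCat.of A M) (ModuleCat.of A A) i))

omit [IsScalarTower k A M] in
include k e he h2 hN in
/-- The local rings of the algebra are self-injective. -/
lemma inj_loc {s : ℕ} (hs2 : 2 ≤ s) (hs6 : s ≤ 6) (hrad : nilradical A ^ (2 * s) = ⊥)
    (hsq : ∀ x ∈ nilradical A, x ^ 2 ∈ nilradical A ^ s)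
    (hE : 4 < s → ∀ (l : ℕ) (x y : Fin l → A), (∀ i, x i ∈ nilradical A) →
      (∀ i, y i ∈ nilradical A) → ∑ i, x i * y i = 0 →
      ∑ i, ∑ j, (if i < j then (x i * y i) * (x j * y j) else 0) ∈ nilradical A ^ s)
    (B : Type) [CommRing B] [IsLocalRing B]
    [Algebra k B] [Algebra A B] [IsScalarTower k A B] [Module.Flat A B]
    (hsurj : Function.Surjective (algebraMap A B)) :
    Module.Injective B B ∧ ∃ s : B →ₗ[A] A, ∀ b, algebraMap A B (s b) = b := by
  have hA1 : IsArtinianRing A := IsArtinianRing.of_finite k A
  have hA2 : IsNoetherianRing A := inferInstance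
  have hfin : Module.Finite A B := Module.Finite.of_surjective (Algebra.linearMap A B) hsurj
  have hfp : Module.FinitePresentation A B := Module.finitePresentation_of_finite A B
  have hproj : Module.Projective A B := Module.Flat.projective_of_finitePresentation
  have hfinB : FiniteDimensional k B :=
    Module.Finite.of_surjective (IsScalarTower.toAlgHom k A B).toLinearMap hsurj
  have hB1 : IsArtinianRing B := IsArtinianRing.of_finite k B
  obtain ⟨σ, hσ⟩ := Module.projective_lifting_property (Algebra.linearMap A B) LinearMap.id hsurj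
  have hσ' : ∀ b, algebraMap A B (σ b) = b := fun b => LinearMap.congr_fun hσ b
  refine ⟨?_, σ, hσ'⟩
  letI : Module A (DB k B) := instModA A
  have htower : IsScalarTower A B (DB k B) := ⟨fun a b f => by
    change (a • b) • f = (algebraMap A B a) • (b • f)
    rw [Algebra.smul_def, mul_smul]⟩
  have h2B : (2 : B) = 0 := by
    have := congrArg (algebraMap A B) h2
    rwa [map_ofNat, map_zero] at this
  rcases local_crit (eDB k B) eDB_smul hsurj h2B
      (fun i hi => ext_local e he σ hσ' (hN i hi)) with h | H
  · exact h
  · by_contra hni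
    have hmul : ∀ a b : B, σ a * σ b = σ (a * b) := by
      intro a b
      have h1 : σ a * σ b = σ (σ a • b) := by rw [map_smul, smul_eq_mul]
      rw [h1, Algebra.smul_def, hσ']
    have hnilB : ∀ y ∈ IsLocalRing.maximalIdeal B, IsNilpotent y := by
      intro y hy
      have h := IsArtinianRing.isNilpotent_jacobson_bot (R := B)
      rw [IsLocalRing.jacobson_eq_maximalIdeal ⊥ bot_ne_top] at h
      obtain ⟨L, hL⟩ := h
      refine ⟨L, ?_⟩
      have h1 : y ^ L ∈ IsLocalRing.maximalIdeal B ^ L := Ideal.pow_mem_pow hy L
      rw [hL] at h1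
      exact h1
    have hlift : ∀ y ∈ IsLocalRing.maximalIdeal B, σ y ∈ nilradical A := by
      intro y hy
      have hpow : ∀ n : ℕ, σ y ^ (n + 1) = σ (y ^ (n + 1)) := by
        intro n
        induction n with
        | zero => rw [zero_add, pow_one, pow_one]
        | succ n ih => rw [pow_succ, ih, hmul, ← pow_succ]
      rw [mem_nilradical]
      obtain ⟨L, hL⟩ := hnilB y hy
      refine ⟨L + 1, ?_⟩
      rw [hpow, pow_succ, hL, zero_mul, map_zero]
    have hle : IsLocalRing.maximalIdeal B ≤ Ideal.map (algebraMap A B) (nilradical A) := by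
      intro y hy
      rw [← hσ' y]
      exact Ideal.mem_map_of_mem _ (hlift y hy)
    have hge : Ideal.map (algebraMap A B) (nilradical A) ≤ IsLocalRing.maximalIdeal B := by
      rw [Ideal.map_le_iff_le_comap]
      intro x hx
      rw [Ideal.mem_comap, IsLocalRing.mem_maximalIdeal]
      intro hu
      rw [mem_nilradical] at hx
      obtain ⟨L, hL⟩ := hx
      have h1 : (algebraMap A B x) ^ L = 0 := by rw [← map_pow, hL, map_zero]
      have h3 := hu.pow L
      rw [h1] at h3
      exact not_isUnit_zero h3
    have hpown : ∀ (i : ℕ) (x : A), x ∈ nilradical A ^ i →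
        algebraMap A B x ∈ IsLocalRing.maximalIdeal B ^ i := by
      intro i x hx
      have h1 : algebraMap A B x ∈ Ideal.map (algebraMap A B) (nilradical A ^ i) :=
        Ideal.mem_map_of_mem _ hx
      rw [Ideal.map_pow] at h1
      exact Ideal.pow_right_mono hge i h1
    have hsqB : ∀ y ∈ IsLocalRing.maximalIdeal B, y ^ 2 ∈ IsLocalRing.maximalIdeal B ^ s := by
      intro y hy
      have h1 := hpown s _ (hsq (σ y) (hlift y hy))
      rwa [map_pow, hσ'] at h1
    refine pow_contra hni H hs2 ?_ ?_
    · by_cases h4 : 4 < s
      · refine ⟨hsqB, fun l x y hx hy hxy => ?_, Ideal.pow_le_pow_right hs6⟩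
        have h1 := hpown s _ (hE h4 l (fun i => σ (x i)) (fun i => σ (y i))
          (fun i => hlift _ (hx i)) (fun i => hlift _ (hy i)) (by
            simp only [hmul]
            rw [← map_sum, hxy, map_zero]))
        rw [map_sum] at h1
        refine (congrArg (· ∈ IsLocalRing.maximalIdeal B ^ s) ?_).mp h1
        refine Finset.sum_congr rfl fun i _ => ?_
        rw [map_sum]
        refine Finset.sum_congr rfl fun j _ => ?_
        split_ifs
        · rw [map_mul, map_mul, map_mul, hσ', hσ', hσ', hσ']
        · rw [map_zero]
      · exact admJ_of_four hsqB (Ideal.pow_le_pow_right (by omega))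
    · rw [eq_bot_iff]
      calc IsLocalRing.maximalIdeal B ^ (2 * s) ≤
            (Ideal.map (algebraMap A B) (nilradical A)) ^ (2 * s) :=
            Ideal.pow_right_mono hle _
        _ = Ideal.map (algebraMap A B) (nilradical A ^ (2 * s)) := (Ideal.map_pow _ _ _).symm
        _ ≤ ⊥ := by rw [hrad, Ideal.map_bot]

omit [IsScalarTower k A M] in
include k e he h2 hN in
/-- Commutative algebras of characteristic two with small squares and small nilradical. -/
theorem glob {s : ℕ} (hs2 : 2 ≤ s) (hs6 : s ≤ 6) (hrad : nilradical A ^ (2 * s) = ⊥)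
    (hsq : ∀ x ∈ nilradical A, x ^ 2 ∈ nilradical A ^ s)
    (hE : 4 < s → ∀ (l : ℕ) (x y : Fin l → A), (∀ i, x i ∈ nilradical A) →
      (∀ i, y i ∈ nilradical A) → ∑ i, x i * y i = 0 →
      ∑ i, ∑ j, (if i < j then (x i * y i) * (x j * y j) else 0) ∈ nilradical A ^ s) :
    Module.Injective A A := by
  classical
  have hA1 : IsArtinianRing A := IsArtinianRing.of_finite k A
  have hloc : ∀ P : MaximalSpectrum A, Module.Injective (Localization.AtPrime P.1)
      (Localization.AtPrime P.1) ∧ ∃ s : Localization.AtPrime P.1 →ₗ[A] A,
        ∀ b, algebraMap A (Localization.AtPrime P.1) (s b) = b := by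
    intro P
    exact inj_loc (k := k) e he h2 hN hs2 hs6 hrad hsq hE (Localization.AtPrime P.1)
      (IsArtinianRing.localization_surjective P.1.primeCompl _)
  apply Module.Baer.injective
  intro I g
  have hu : ∀ P : MaximalSpectrum A, ∃ u : Localization.AtPrime P.1, ∀ x : I,
      algebraMap A (Localization.AtPrime P.1) (g x) =
        algebraMap A (Localization.AtPrime P.1) x * u := by
    intro P
    obtain ⟨hinj, s, hs⟩ := hloc P
    have hsurj : Function.Surjective (algebraMap A (Localization.AtPrime P.1)) :=
      IsArtinianRing.localization_surjective P.1.primeCompl _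
    let IB : Ideal (Localization.AtPrime P.1) := Ideal.map (algebraMap A _) I
    have hsI : ∀ y ∈ IB, s y ∈ I := by
      intro y hy
      obtain ⟨x, hx, rfl⟩ := (Ideal.mem_map_iff_of_surjective _ hsurj).1 hy
      have h1 : s (algebraMap A _ x) = x * s 1 := by
        rw [Algebra.algebraMap_eq_smul_one, map_smul, smul_eq_mul]
      rw [h1]
      exact I.mul_mem_right _ hx
    let h : IB →ₗ[Localization.AtPrime P.1] Localization.AtPrime P.1 :=
      { toFun := fun y => algebraMap A _ (g ⟨s y, hsI y y.2⟩)
        map_add' := by
          intro y z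
          have h1 : (⟨s ((y + z : IB) : Localization.AtPrime P.1), hsI _ (y + z).2⟩ : I) =
              ⟨s y, hsI y y.2⟩ + ⟨s z, hsI z z.2⟩ := by
            apply Subtype.ext
            change s ((y : Localization.AtPrime P.1) + z) = s y + s z
            rw [map_add]
          rw [h1, map_add, map_add]
        map_smul' := by
          intro c y
          obtain ⟨a, rfl⟩ := hsurj c
          have h1 : (⟨s (((algebraMap A (Localization.AtPrime P.1) a) • y : IB) :
              Localization.AtPrime P.1), hsI _ ((algebraMap A _ a) • y).2⟩ : I) =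
              a • ⟨s y, hsI y y.2⟩ := by
            apply Subtype.ext
            change s ((algebraMap A _ a) * (y : Localization.AtPrime P.1)) = a * s y
            rw [← Algebra.smul_def, map_smul, smul_eq_mul]
          rw [h1, map_smul, RingHom.id_apply, smul_eq_mul, smul_eq_mul, map_mul] }
    obtain ⟨h', hh'⟩ := (Module.Baer.of_injective hinj) IB h
    refine ⟨h' 1, fun x => ?_⟩
    have hxB : algebraMap A (Localization.AtPrime P.1) x ∈ IB := Ideal.mem_map_of_mem _ x.2
    have h1 := hh' (algebraMap A _ x) hxB
    have h3 : h' (algebraMap A _ (x : A)) = algebraMap A _ (x : A) * h' 1 := by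
      rw [← smul_eq_mul, ← map_smul, smul_eq_mul, mul_one]
    have h4 : h ⟨algebraMap A _ x, hxB⟩ = algebraMap A _ (g x) := by
      change algebraMap A _ (g ⟨s (algebraMap A _ (x : A)), _⟩) = _
      have h5 : (⟨s (algebraMap A _ (x : A)), hsI _ hxB⟩ : I) = (s 1) • x := by
        apply Subtype.ext
        change s (algebraMap A _ (x : A)) = s 1 * x
        rw [Algebra.algebraMap_eq_smul_one, map_smul, smul_eq_mul, mul_comm]
      rw [h5, map_smul, smul_eq_mul, map_mul, hs, one_mul]
    rw [← h4, ← h1, h3]
  choose u hu' using hu
  obtain ⟨w, hw⟩ :=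
    PrimeSpectrum.maximalSpectrumToPiLocalization_surjective_of_discreteTopology A u
  refine ⟨LinearMap.toSpanSingleton A A w, fun x hx => ?_⟩
  apply MaximalSpectrum.toPiLocalization_injective A
  funext P
  rw [LinearMap.toSpanSingleton_apply, smul_eq_mul, map_mul]
  change algebraMap A _ x * MaximalSpectrum.toPiLocalization A w P =
    algebraMap A _ (g ⟨x, hx⟩)
  rw [hw, hu' P ⟨x, hx⟩]

end glob

end Pool.Agent.Tach
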