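import Pool.Agent.Tach.Dual

set_option autoImplicit false

/-! The criterion for local algebras. -/

namespace Pool.Agent.Tach

open Finset CategoryTheory

section inj

variable {k A M : Type} [Field k] [CommRing A] [Algebra k A] [AddCommGroup M] [Module A M]
  [Module k M] [IsScalarTower k A M] (e : M ≃ₗ[k] Module.Dual k A)
  (he : ∀ (a : A) (m : M) (x : A), e (a • m) x = e m (x * a))

include he in
/-- The dual of the algebra is an injective module. -/
lemma baer_dual : Module.Baer A M := by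
  intro I g
  let f : (I.restrictScalars k) →ₗ[k] k :=
    { toFun := fun x => e (g ⟨x.1, x.2⟩) 1
      map_add' := by
        intro x y
        have : (⟨(x + y).1, (x + y).2⟩ : I) = ⟨x.1, x.2⟩ + ⟨y.1, y.2⟩ := rfl
        rw [this, map_add, map_add, LinearMap.add_apply]
      map_smul' := by
        intro c x
        have h1 : (⟨(c • x).1, (c • x).2⟩ : I) = (algebraMap k A c) • ⟨x.1, x.2⟩ := by
          apply Subtype.ext
          change c • (x : A) = algebraMap k A c * (x : A)
          rw [Algebra.smul_def]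
        rw [h1, map_smul, algebraMap_smul, map_smul]
        rfl }
  obtain ⟨F, hF⟩ := LinearMap.exists_extend f
  refine ⟨LinearMap.toSpanSingleton A M (e.symm F), fun x hx => ?_⟩
  apply e.injective
  apply LinearMap.ext
  intro y
  rw [LinearMap.toSpanSingleton_apply, he, LinearEquiv.apply_symm_apply]
  have h1 : F (y * x) = f ⟨y * x, I.mul_mem_left y hx⟩ :=
    congrArg (fun u => u ⟨y * x, I.mul_mem_left y hx⟩) hF
  rw [h1]
  change e (g ⟨y * x, _⟩) 1 = _
  have h2 : (⟨y * x, I.mul_mem_left y hx⟩ : I) = y • (⟨x, hx⟩ : I) := rfl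
  rw [h2, map_smul, he, one_mul]

end inj

section free

variable {A : Type} [CommRing A] [IsLocalRing A]

lemma exists_socle [IsArtinianRing A] :
    ∃ σ : A, σ ≠ 0 ∧ ∀ x ∈ IsLocalRing.maximalIdeal A, σ * x = 0 := by
  classical
  have hex : ∃ L : ℕ, IsLocalRing.maximalIdeal A ^ L = ⊥ := by
    have := IsArtinianRing.isNilpotent_jacobson_bot (R := A)
    rw [IsLocalRing.jacobson_eq_maximalIdeal ⊥ bot_ne_top] at this
    exact this
  have h1 := Nat.find_spec hex
  have hmin := fun m (hm : m < Nat.find hex) => Nat.find_min hex hm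
  generalize Nat.find hex = L at *
  rcases L with _ | L
  · rw [pow_zero, Ideal.one_eq_top] at h1
    exact absurd h1.symm bot_ne_top
  · have h2 := hmin L (Nat.lt_succ_self L)
    obtain ⟨σ, hσ, hσ0⟩ := Submodule.exists_mem_ne_zero_of_ne_bot h2
    refine ⟨σ, hσ0, fun x hx => ?_⟩
    have : σ * x ∈ IsLocalRing.maximalIdeal A ^ (L + 1) := by
      rw [pow_succ]
      exact Ideal.mul_mem_mul hσ hx
    rw [h1] at this
    exact this

lemma rk_descend [IsNoetherianRing A] [IsArtinianRing A] (s : Stg A) (i : ℕ)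
    (h : rk s (i + 1 + 1) = 0) : rk s (i + 1) = 0 := by
  by_contra hne
  obtain ⟨σ, hσ, hσm⟩ := exists_socle (A := A)
  let j : Fin (rk s (i + 1)) := ⟨0, Nat.pos_of_ne_zero hne⟩
  have h1 : df s i (σ • Pi.single j 1) = 0 := by
    rw [map_smul]
    funext t
    exact hσm _ ((stg s i).hW _ ((df_range s i _).2 ⟨_, rfl⟩) t)
  obtain ⟨y, hy⟩ := (df_range s (i + 1) _).1 ((df_ker s i _).2 h1)
  have h2 : y = 0 := by
    funext t
    exact absurd t.2 (by omega)
  rw [h2, map_zero] at hy
  have h3 := congrFun hy j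
  rw [Pi.smul_apply, Pi.single_eq_same, smul_eq_mul, mul_one] at h3
  exact hσ h3.symm

lemma rk_pos [IsNoetherianRing A] [IsArtinianRing A] (s : Stg A) (h0 : 0 < s.n)
    (hW : s.W ≠ ⊥) : ∀ i, 0 < rk s i
  | 0 => h0
  | 1 => by
    rw [Nat.pos_iff_ne_zero]
    intro h
    apply hW
    rw [Submodule.eq_bot_iff]
    intro x hx
    obtain ⟨y, rfl⟩ := (df_range s 0 x).1 hx
    have h' : rk s (0 + 1) = 0 := h
    have h2 : y = 0 := by
      funext t
      exact absurd t.2 (by omega)
    rw [h2]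
    exact map_zero (df s 0)
  | i + 2 => by
    rw [Nat.pos_iff_ne_zero]
    intro h
    exact (rk_pos s h0 hW (i + 1)).ne' (rk_descend s i h)

end free

section main

variable {k A M : Type} [Field k] [CommRing A] [IsLocalRing A] [Algebra k A]
  [FiniteDimensional k A] [AddCommGroup M] [Module A M]
  [Module k M] [IsScalarTower k A M] (e : M ≃ₗ[k] Module.Dual k A)
  (he : ∀ (a : A) (m : M) (x : A), e (a • m) x = e m (x * a))

include he in
lemma inj_of_free {n : ℕ} (π : (Fin n → A) →ₗ[A] M) (hπ : Function.Surjective π)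
    (hker : LinearMap.ker π = ⊥) : Module.Injective A A := by
  have hb := baer_dual e he
  have hinj : Function.Injective π := LinearMap.ker_eq_bot.1 hker
  let E : (Fin n → A) ≃ₗ[A] M := LinearEquiv.ofBijective π ⟨hinj, hπ⟩
  have hfin : Module.Finite k M := Module.Finite.equiv e.symm
  have h1 : Module.finrank k (Fin n → A) = Module.finrank k M :=
    (E.restrictScalars k).finrank_eq
  have h2 : Module.finrank k M = Module.finrank k A := by
    rw [e.finrank_eq, Subspace.dual_finrank_eq]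
  have h3 : Module.finrank k (Fin n → A) = n * Module.finrank k A := by
    rw [Module.finrank_pi_fintype]
    simp
  have h4 : 0 < Module.finrank k A := Module.finrank_pos
  have h5 : n = 1 := by
    rw [h3, h2] at h1
    nlinarith
  subst h5
  let E' : A ≃ₗ[A] M := (LinearEquiv.funUnique (Fin 1) A A).symm.trans E
  exact Module.Baer.injective (Module.Baer.of_equiv E'.symm hb)

variable {R : Type} [CommRing R] [Algebra R A] [Module.Projective R A]
  (hRA : Function.Surjective (algebraMap R A)) [Module R M] [IsScalarTower R A M]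
  [CategoryTheory.HasExt.{1} (ModuleCat.{0} R)] (h2 : (2 : A) = 0)
  {N : ℕ} (hN : ∀ i, N ≤ i →
    Subsingleton (Abelian.Ext.{1} (ModuleCat.of R M) (ModuleCat.of R A) i))

omit [FiniteDimensional k A] [IsScalarTower k A M] in
include he hRA h2 hN in
lemma local_crit_aux [IsNoetherianRing A] (s : Stg A) (π : (Fin s.n → A) →ₗ[A] M)
    (hπ : Function.Surjective π) (hs : s.W = LinearMap.ker π) (hn : ∀ i, 0 < rk s i) {L : ℕ}
    (hL : IsLocalRing.maximalIdeal A ^ L = ⊥) (J : Ideal A)
    (hJ : AdmJ (IsLocalRing.maximalIdeal A) J)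
    (g : A) (hg : g ∈ Submodule.annihilator J) (c : Ideal A)
    (hc : ∀ φ : (Submodule.annihilator J : Ideal A) →ₗ[A] (A ⧸ J),
      φ ⟨g, hg⟩ ∈ Ideal.map (Ideal.Quotient.mk J) c) : g ∈ J * (c ⊔ J) := by
  classical
  have hM : ∀ b, N + 1 ≤ b → ∀ ξ : Idx (rk s) → M, (∀ q, q.1 ≠ b → ξ q = 0) →
      (∀ q : Idx (rk s), ∑ t : Fin (rk s (q.1 + 1)),
        Dm s q ⟨q.1 + 1, t⟩ • ξ ⟨q.1 + 1, t⟩ = 0) →
      ∃ η : Idx (rk s) → M, (∀ q, q.1 ≠ b + 1 → η q = 0) ∧
        ∀ q : Idx (rk s), ξ q = ∑ t : Fin (rk s (q.1 + 1)),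
          Dm s q ⟨q.1 + 1, t⟩ • η ⟨q.1 + 1, t⟩ := by
    intro b hb ξ hξ0 hξ
    obtain ⟨i, rfl⟩ : ∃ i, b = i + 1 := ⟨b - 1, by omega⟩
    obtain ⟨η, hη⟩ := dualize e he (fun q r => Dm s ⟨i, q⟩ ⟨i + 1, r⟩)
      (fun r t => Dm s ⟨i + 1, r⟩ ⟨i + 1 + 1, t⟩)
      (mat_exact s π hπ hs hN hRA i (by omega)) (fun r => ξ ⟨i + 1, r⟩)
      (fun q => hξ ⟨i, q⟩)
    refine ⟨ext (i + 1 + 1) η, fun q hq => ext_ne _ hq, fun q => ?_⟩
    by_cases hq : q.1 = i + 1
    · obtain ⟨j, r⟩ := q
      dsimp at hq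
      subst hq
      rw [hη r]
      refine sum_congr rfl fun t _ => ?_
      rw [ext_self (i + 1 + 1) η t]
    · rw [hξ0 q hq]
      symm
      refine sum_eq_zero fun t _ => ?_
      rw [ext_ne _ (by dsimp; omega), smul_zero]
  have hX := total_exact (Dm s) (Dm_DD s) h2 (Dm_P s) π hπ
    (by
      intro t
      have h1 : (fun r => Dm s ⟨0, r⟩ ⟨0 + 1, t⟩) = df s 0 (Pi.single t 1) := by
        funext r
        exact Dm_apply s ⟨0, r⟩ t
      have h3 : df s 0 (Pi.single t 1) ∈ s.W := (df_range s 0 _).2 ⟨_, rfl⟩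
      have h4 := hs.le h3
      have h5 : π (df s 0 (Pi.single t 1)) = 0 := h4
      exact (congrArg π h1).trans h5)
    (by
      intro x hx
      have h3 : x ∈ s.W := hs.ge hx
      obtain ⟨y, hy⟩ := (df_range s 0 x).1 h3
      refine ⟨ext 1 y, fun p hp => ext_ne _ hp, fun r => ?_⟩
      have h1 : ∀ t, ext (n := rk s) 1 y ⟨0 + 1, t⟩ = y t := fun t => ext_self 1 y t
      simp only [h1]
      rw [Dm_sum s ⟨0, r⟩ y, hy])
    hM
  exact critG (Dm s) (Dm_mem s) hL h2 (Dm_DD s) hX hn hJ g hg c hc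

include he hRA h2 hN in
theorem local_crit :
    Module.Injective A A ∨ ∀ J : Ideal A,
      AdmJ (IsLocalRing.maximalIdeal A) J →
      ∀ (g : A) (hg : g ∈ Submodule.annihilator J) (c : Ideal A),
        (∀ φ : (Submodule.annihilator J : Ideal A) →ₗ[A] (A ⧸ J),
          φ ⟨g, hg⟩ ∈ Ideal.map (Ideal.Quotient.mk J) c) → g ∈ J * (c ⊔ J) := by
  classical
  have hA1 : IsArtinianRing A := IsArtinianRing.of_finite k A
  have hA2 : IsNoetherianRing A := inferInstance
  have hfin : Module.Finite k M := Module.Finite.equiv e.symm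
  have hfinA : Module.Finite A M := Module.Finite.of_restrictScalars_finite k A M
  obtain ⟨n0, π, hπ, hπm⟩ := exists_cover (A := A) M
  by_cases hker : LinearMap.ker π = ⊥
  · exact Or.inl (inj_of_free e he π hπ hker)
  right
  have hn0 : 0 < n0 := by
    rw [Nat.pos_iff_ne_zero]
    intro h
    apply hker
    rw [Submodule.eq_bot_iff]
    intro x _
    funext t
    exact absurd t.2 (by omega)
  obtain ⟨L, hL⟩ : ∃ L : ℕ, IsLocalRing.maximalIdeal A ^ L = ⊥ := by
    have := IsArtinianRing.isNilpotent_jacobson_bot (R := A)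
    rw [IsLocalRing.jacobson_eq_maximalIdeal ⊥ bot_ne_top] at this
    exact this
  intro J hJ g hg c hc
  exact local_crit_aux e he hRA h2 hN ⟨n0, LinearMap.ker π, hπm⟩ π hπ rfl
    (rk_pos ⟨n0, LinearMap.ker π, hπm⟩ hn0 hker) hL J hJ g hg c hc

end main

end Pool.Agent.Tach
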