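import Pool.Agent.Tach.Local
import Pool.Agent.Tach.CritW

set_option autoImplicit false

/-! The consequence in degree zero, for local algebras. -/

namespace Pool.Agent.Tach

open Finset CategoryTheory

section dual

variable {k A M : Type} [Field k] [CommRing A] [Algebra k A] [AddCommGroup M] [Module A M]
  [Module k M] [IsScalarTower k A M] (e : M ≃ₗ[k] Module.Dual k A)
  (he : ∀ (a : A) (m : M) (x : A), e (a • m) x = e m (x * a))

omit [IsScalarTower k A M] in
include he in
/-- dualisation of a single element -/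
lemma dualize_one {b c : ℕ} (Y : Fin b → Fin c → A) (ξ : Fin b → M)
    (hξ : ∀ y : Fin b → A, (∀ t, ∑ r, y r * Y r t = 0) → ∑ r, e (ξ r) (y r) = 0) :
    ∃ η : Fin c → M, ∀ r, ξ r = ∑ t, Y r t • η t := by
  classical
  let f : (Fin b → A) →ₗ[k] k := ∑ r, (e (ξ r)) ∘ₗ LinearMap.proj r
  have hf : ∀ y, f y = ∑ r, e (ξ r) (y r) := by
    intro y
    simp only [f, LinearMap.sum_apply]
    rfl
  let tr : (Fin b → A) →ₗ[k] (Fin c → A) :=
    { toFun := fun y t => ∑ r, y r * Y r t
      map_add' := by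
        intro x y
        funext t
        simp only [Pi.add_apply, add_mul, sum_add_distrib]
      map_smul' := by
        intro c x
        funext t
        simp only [Pi.smul_apply, smul_sum, RingHom.id_apply, smul_mul_assoc] }
  have h1 : f ∈ LinearMap.range tr.dualMap := by
    rw [LinearMap.range_dualMap_eq_dualAnnihilator_ker, Submodule.mem_dualAnnihilator]
    intro y hy
    rw [hf]
    exact hξ y fun t => congrFun (LinearMap.mem_ker.1 hy) t
  obtain ⟨g, hg⟩ := h1
  refine ⟨fun t => e.symm (g ∘ₗ LinearMap.single k (fun _ => A) t), fun r => ?_⟩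
  apply e.injective
  apply LinearMap.ext
  intro x
  rw [map_sum, LinearMap.sum_apply]
  have h3 : ∀ t, e (Y r t • e.symm (g ∘ₗ LinearMap.single k (fun _ => A) t)) x =
      g (Pi.single t (x * Y r t)) := by
    intro t
    rw [he, LinearEquiv.apply_symm_apply]
    rfl
  simp only [h3]
  rw [← map_sum]
  have h4 : (∑ t, (Pi.single t (x * Y r t) : Fin c → A)) = tr (Pi.single r x) := by
    funext t
    rw [Finset.sum_apply, sum_eq_single t]
    · rw [Pi.single_eq_same]
      change _ = ∑ r', (Pi.single r x : Fin b → A) r' * Y r' t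
      rw [sum_eq_single r]
      · rw [Pi.single_eq_same]
      · intro b _ hb
        simp [hb]
      · intro h; exact absurd (mem_univ r) h
    · intro b _ hb
      simp [hb.symm]
    · intro h; exact absurd (mem_univ t) h
  rw [h4]
  have h5 : g (tr (Pi.single r x)) = f (Pi.single r x) := congrArg (fun u => u (Pi.single r x)) hg
  rw [h5, hf, sum_eq_single r]
  · rw [Pi.single_eq_same]
  · intro b _ hb
    simp [hb]
  · intro h; exact absurd (mem_univ r) h

end dual

section main

variable {k A M : Type} [Field k] [CommRing A] [IsLocalRing A] [Algebra k A]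
  [FiniteDimensional k A] [AddCommGroup M] [Module A M]
  [Module k M] [IsScalarTower k A M] (e : M ≃ₗ[k] Module.Dual k A)
  (he : ∀ (a : A) (m : M) (x : A), e (a • m) x = e m (x * a))
  {R : Type} [CommRing R] [Algebra R A] [Module.Projective R A]
  (hRA : Function.Surjective (algebraMap R A)) [Module R M] [IsScalarTower R A M]
  [CategoryTheory.HasExt.{1} (ModuleCat.{0} R)] (h2 : (2 : A) = 0)
  (hN : ∀ i, 1 ≤ i →
    Subsingleton (Abelian.Ext.{1} (ModuleCat.of R M) (ModuleCat.of R A) i))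

omit [FiniteDimensional k A] [IsScalarTower k A M] in
include he hRA h2 hN in
lemma local_critW_aux [IsNoetherianRing A] (s : Stg A) (π : (Fin s.n → A) →ₗ[A] M)
    (hπ : Function.Surjective π) (hs : s.W = LinearMap.ker π) {L : ℕ}
    (hL : IsLocalRing.maximalIdeal A ^ L = ⊥) (J : Ideal A)
    (hJ : AdmJ (IsLocalRing.maximalIdeal A) J) (v : Fin s.n → A) (x : A)
    (hxv : ∀ φ : M →ₗ[A] A, (x * φ (π v)) • π v = 0) (r : Fin s.n) : x * v r ^ 2 ∈ J := by
  classical
  have hM : ∀ b, 1 ≤ b → ∀ ξ : Idx (rk s) → M, (∀ q, q.1 ≠ b → ξ q = 0) →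
      (∀ q : Idx (rk s), ∑ t : Fin (rk s (q.1 + 1)),
        Dm s q ⟨q.1 + 1, t⟩ • ξ ⟨q.1 + 1, t⟩ = 0) →
      ∃ η : Idx (rk s) → M, (∀ q, q.1 ≠ b + 1 → η q = 0) ∧
        ∀ q : Idx (rk s), ξ q = ∑ t : Fin (rk s (q.1 + 1)),
          Dm s q ⟨q.1 + 1, t⟩ • η ⟨q.1 + 1, t⟩ := by
    intro b hb ξ hξ0 hξ
    obtain ⟨i, rfl⟩ : ∃ i, b = i + 1 := ⟨b - 1, by omega⟩
    obtain ⟨η, hη⟩ := dualize e he (fun q r => Dm s ⟨i, q⟩ ⟨i + 1, r⟩)
      (fun r t => Dm s ⟨i + 1, r⟩ ⟨i + 1 + 1, t⟩)
      (mat_exact s π hπ hs hN hRA i (by omega)) (fun r => ξ ⟨i + 1, r⟩)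
      (fun q => hξ ⟨i, q⟩)
    refine ⟨ext (i + 1 + 1) η, fun q hq => ext_ne _ hq, fun q => ?_⟩
    by_cases hq : q.1 = i + 1
    · obtain ⟨j, r⟩ := q
      dsimp at hq
      subst hq
      rw [hη r]
      refine sum_congr rfl fun t _ => ?_
      rw [ext_self (i + 1 + 1) η t]
    · rw [hξ0 q hq]
      symm
      refine sum_eq_zero fun t _ => ?_
      rw [ext_ne _ (by dsimp; omega), smul_zero]
  have hπ0 : ∀ t : Fin (rk s (0 + 1)), π (fun r => Dm s ⟨0, r⟩ ⟨0 + 1, t⟩) = 0 := by
    intro t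
    have h1 : (fun r => Dm s ⟨0, r⟩ ⟨0 + 1, t⟩) = df s 0 (Pi.single t 1) := by
      funext r
      exact Dm_apply s ⟨0, r⟩ t
    have h3 : df s 0 (Pi.single t 1) ∈ s.W := (df_range s 0 _).2 ⟨_, rfl⟩
    have h4 := hs.le h3
    have h5 : π (df s 0 (Pi.single t 1)) = 0 := h4
    exact (congrArg π h1).trans h5
  have hπk : ∀ x : Fin (rk s 0) → A, π x = 0 → ∃ u : Idx (rk s) → A,
      (∀ p, p.1 ≠ 1 → u p = 0) ∧
      ∀ r, x r = ∑ t : Fin (rk s (0 + 1)), Dm s ⟨0, r⟩ ⟨0 + 1, t⟩ * u ⟨0 + 1, t⟩ := by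
    intro x hx
    have h3 : x ∈ s.W := hs.ge hx
    obtain ⟨y, hy⟩ := (df_range s 0 x).1 h3
    refine ⟨ext 1 y, fun p hp => ext_ne _ hp, fun r => ?_⟩
    have h1 : ∀ t, ext (n := rk s) 1 y ⟨0 + 1, t⟩ = y t := fun t => ext_self 1 y t
    simp only [h1]
    rw [Dm_sum s ⟨0, r⟩ y, hy]
  have hX := total_exact (Dm s) (Dm_DD s) h2 (Dm_P s) π hπ hπ0 hπk hM
  obtain ⟨η, hη⟩ : ∃ η : Fin (rk s (0 + 1)) → M, ∀ r : Fin (rk s 0), (x * v r) • π v =
      ∑ t, Dm s ⟨0, r⟩ ⟨0 + 1, t⟩ • η t := by
    refine dualize_one e he (fun r t => Dm s ⟨0, r⟩ ⟨0 + 1, t⟩) (fun r => (x * v r) • π v) ?_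
    intro y hy
    let φ0 : (Fin s.n → A) →ₗ[A] A :=
      { toFun := fun u => ∑ r, y r * u r
        map_add' := by
          intro u u'
          simp only [Pi.add_apply, mul_add, sum_add_distrib]
        map_smul' := by
          intro c u
          simp only [Pi.smul_apply, smul_eq_mul, mul_sum, RingHom.id_apply]
          exact sum_congr rfl fun r _ => by ring }
    have hφ0 : LinearMap.ker π ≤ LinearMap.ker φ0 := by
      intro u hu
      obtain ⟨c, hc⟩ := (df_range s 0 u).1 (hs.ge hu)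
      rw [LinearMap.mem_ker]
      change ∑ r, y r * u r = 0
      have h1 : ∀ r, u r = ∑ t, Dm s ⟨0, r⟩ ⟨0 + 1, t⟩ * c t := fun r => by
        rw [Dm_sum s ⟨0, r⟩ c, hc]
      simp only [h1, mul_sum]
      rw [sum_comm]
      refine sum_eq_zero fun t _ => ?_
      have h3 := congrArg (· * c t) (hy t)
      simp only [zero_mul, sum_mul] at h3
      rw [← h3]
      exact sum_congr rfl fun r _ => by ring
    let E := π.quotKerEquivOfSurjective hπ
    let φ : M →ₗ[A] A := (LinearMap.ker π).liftQ φ0 hφ0 ∘ₗ E.symm.toLinearMap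
    have hφ : φ (π v) = ∑ r, y r * v r := by
      change (LinearMap.ker π).liftQ φ0 hφ0 (E.symm (π v)) = ∑ r, y r * v r
      have : E.symm (π v) = Submodule.Quotient.mk v := by
        rw [LinearEquiv.symm_apply_eq]
        rfl
      rw [this]
      rfl
    have h1 : e ((x * φ (π v)) • π v) 1 = 0 := by rw [hxv φ, map_zero, LinearMap.zero_apply]
    rw [he, hφ, one_mul, mul_sum, map_sum] at h1
    rw [← h1]
    refine sum_congr rfl fun r _ => ?_
    rw [he]
    congr 1
    ring
  have hv0 : ∀ p : Idx (rk s), p.1 ≠ 0 → ext (n := rk s) 0 v p = 0 := fun p hp =>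
    ext_ne (n := rk s) v hp
  have hvs : ∀ r : Fin (rk s 0), ext (n := rk s) 0 v ⟨0, r⟩ = v r := fun r =>
    ext_self (n := rk s) 0 v r
  obtain ⟨w1, hw1h, hw1⟩ := total_exact_z (Dm s) (Dm_DD s) h2 (Dm_P s) π hπ hπk (b := 0)
    (fun p q => x * ext (n := rk s) 0 v p * ext (n := rk s) 0 v q)
    (by
      intro p q hpq
      change x * ext (n := rk s) 0 v p * ext (n := rk s) 0 v q = 0
      by_cases hp : p.1 = 0
      · have hq : q.1 ≠ 0 := by omega
        rw [hv0 q hq, mul_zero]
      · rw [hv0 p hp, mul_zero, zero_mul])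
    (by
      funext p q
      rw [bd_apply, sum_eq_zero, sum_eq_zero, add_zero]
      · rfl
      · intro t _
        change _ * (x * ext (n := rk s) 0 v p * ext (n := rk s) 0 v ⟨q.1 + 1, t⟩) = 0
        rw [hv0 ⟨q.1 + 1, t⟩ (by simp), mul_zero, mul_zero]
      · intro t _
        change _ * (x * ext (n := rk s) 0 v ⟨p.1 + 1, t⟩ * ext (n := rk s) 0 v q) = 0
        rw [hv0 ⟨p.1 + 1, t⟩ (by simp), mul_zero, zero_mul, mul_zero])
    (ext 1 η) (fun q hq => ext_ne _ (by simpa using hq))
    (by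
      intro q
      have h1 : (fun r => x * ext (n := rk s) 0 v ⟨0, r⟩ * ext (n := rk s) 0 v q) =
          (x * ext (n := rk s) 0 v q) • v := by
        funext r
        rw [hvs, Pi.smul_apply, smul_eq_mul]
        ring
      have h3 := congrArg π h1
      rw [map_smul] at h3
      refine h3.trans ?_
      by_cases hq : q.1 = 0
      · obtain ⟨i, r⟩ := q
        dsimp at hq
        subst hq
        rw [hvs, hη r]
        refine sum_congr rfl fun t _ => ?_
        have h4 : ext (n := rk s) 1 η ⟨0 + 1, t⟩ = η t := ext_self 1 η t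
        rw [h4]
      · rw [hv0 q hq, mul_zero, zero_smul, sum_eq_zero]
        intro t _
        rw [ext_ne η (by dsimp; omega), smul_zero])
  exact critW (Dm s) (Dm_mem s) hL h2 (Dm_DD s) hX hJ v x w1 hw1h hw1 r

include he hRA h2 hN in
/-- Outside of an admissible ideal: the general form. -/
theorem local_critW (J : Ideal A) (hJ : AdmJ (IsLocalRing.maximalIdeal A) J) (x : A)
    (hx : x ∉ J) (w : M) (hw : w ∉ IsLocalRing.maximalIdeal A • (⊤ : Submodule A M)) :
    ∃ φ : M →ₗ[A] A, (x * φ w) • w ≠ 0 := by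
  classical
  have hA1 : IsArtinianRing A := IsArtinianRing.of_finite k A
  have hA2 : IsNoetherianRing A := inferInstance
  have hfin : Module.Finite k M := Module.Finite.equiv e.symm
  have hfinA : Module.Finite A M := Module.Finite.of_restrictScalars_finite k A M
  obtain ⟨L, hL⟩ : ∃ L : ℕ, IsLocalRing.maximalIdeal A ^ L = ⊥ := by
    have := IsArtinianRing.isNilpotent_jacobson_bot (R := A)
    rw [IsLocalRing.jacobson_eq_maximalIdeal ⊥ bot_ne_top] at this
    exact this
  by_contra hcon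
  push Not at hcon
  obtain ⟨n0, π, hπ, hπm⟩ := exists_cover (A := A) M
  obtain ⟨v, rfl⟩ := hπ w
  have h1 : ∀ r, x * v r ^ 2 ∈ J := fun r =>
    local_critW_aux e he hRA h2 hN ⟨n0, LinearMap.ker π, hπm⟩ π hπ rfl hL J hJ v x hcon r
  have h3 : ∃ r, v r ∉ IsLocalRing.maximalIdeal A := by
    by_contra hcon'
    push Not at hcon'
    apply hw
    have h5 : v = ∑ r, v r • (Pi.single r (1 : A) : Fin n0 → A) := by
      funext j
      rw [Finset.sum_apply, sum_eq_single j]
      · rw [Pi.smul_apply, Pi.single_eq_same, smul_eq_mul, mul_one]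
      · intro b _ hb
        simp [hb.symm]
      · intro hj; exact absurd (mem_univ j) hj
    rw [h5, map_sum]
    refine Submodule.sum_mem _ fun r _ => ?_
    rw [map_smul]
    exact Submodule.smul_mem_smul (hcon' r) trivial
  obtain ⟨r, hr⟩ := h3
  have hu : IsUnit (v r) := by
    by_contra hu
    exact hr ((IsLocalRing.mem_maximalIdeal _).2 hu)
  obtain ⟨c, hc⟩ := hu.exists_left_inv
  apply hx
  have h6 : x = c ^ 2 * (x * v r ^ 2) := by
    calc x = (c * v r) ^ 2 * x := by rw [hc]; ring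
      _ = c ^ 2 * (x * v r ^ 2) := by ring
  rw [h6]
  exact J.mul_mem_left _ (h1 r)

include he hRA h2 hN in
/-- Outside of an admissible ideal every element generates an ideal containing the socle. -/
theorem local_soc (J : Ideal A) (hJ : AdmJ (IsLocalRing.maximalIdeal A) J) (x : A)
    (hx : x ∉ J) (σ : A) (hσ : ∀ y ∈ IsLocalRing.maximalIdeal A, σ * y = 0) :
    σ ∈ Ideal.span {x} := by
  by_contra hσx
  obtain ⟨f, hf0, hf⟩ := Submodule.exists_le_ker_of_notMem
    (p := (Ideal.span {x}).restrictScalars k) (v := σ) hσx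
  have hxw : x • e.symm f = 0 := by
    apply e.injective
    apply LinearMap.ext
    intro a
    rw [he, LinearEquiv.apply_symm_apply, map_zero, LinearMap.zero_apply]
    exact hf (Ideal.mul_mem_left _ _ (Ideal.mem_span_singleton_self x))
  obtain ⟨φ, hφ⟩ := local_critW e he hRA h2 hN J hJ x hx (e.symm f) (by
    intro hmem
    have h4 : ∀ u ∈ IsLocalRing.maximalIdeal A • (⊤ : Submodule A M), e u σ = 0 := by
      intro u hu
      refine Submodule.smul_induction_on hu ?_ ?_
      · intro a ha u' _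
        rw [he, hσ a ha, map_zero]
      · intro u u' hu hu'
        rw [map_add, LinearMap.add_apply, hu, hu', add_zero]
    have h5 := h4 _ hmem
    rw [LinearEquiv.apply_symm_apply] at h5
    exact hf0 h5)
  apply hφ
  rw [mul_comm, mul_smul, hxw, smul_zero]

include he hRA h2 hN in
/-- Outside of an admissible ideal no element kills all the homomorphisms from the dual. -/
theorem local_trace (J : Ideal A) (hJ : AdmJ (IsLocalRing.maximalIdeal A) J) (x : A)
    (hx : x ∉ J) : ∃ (φ : M →ₗ[A] A) (w : M), x * φ w ≠ 0 := by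
  have hA1 : IsArtinianRing A := IsArtinianRing.of_finite k A
  have hfin : Module.Finite k M := Module.Finite.equiv e.symm
  have hfinA : Module.Finite A M := Module.Finite.of_restrictScalars_finite k A M
  have hex : ∃ w : M, w ∉ IsLocalRing.maximalIdeal A • (⊤ : Submodule A M) := by
    by_contra hcon
    push Not at hcon
    have h1 : (⊤ : Submodule A M) ≤ IsLocalRing.maximalIdeal A • (⊤ : Submodule A M) :=
      fun w _ => hcon w
    have h3 := Submodule.eq_bot_of_le_smul_of_le_jacobson_bot _ (⊤ : Submodule A M)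
      Module.Finite.fg_top h1 (IsLocalRing.maximalIdeal_le_jacobson _)
    have h4 : ∀ u : M, u = 0 := fun u => (Submodule.mem_bot A).1 (h3 ▸ Submodule.mem_top)
    obtain ⟨f, hf, -⟩ := Submodule.exists_le_ker_of_notMem
      (p := (⊥ : Submodule k A)) (v := (1 : A)) (by
        rw [Submodule.mem_bot]
        exact one_ne_zero)
    apply hf
    have h5 := h4 (e.symm f)
    have h6 : f = 0 := by
      rw [← LinearEquiv.apply_symm_apply e f, h5, map_zero]
    rw [h6, LinearMap.zero_apply]
  obtain ⟨w, hw⟩ := hex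
  obtain ⟨φ, hφ⟩ := local_critW e he hRA h2 hN J hJ x hx w hw
  refine ⟨φ, w, fun h0 => hφ ?_⟩
  rw [h0, zero_smul]

end main

end Pool.Agent.Tach
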