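import Pool.Agent.Tach.Core

set_option autoImplicit false

/-! Homological perturbation for the swap on the tensor square. -/

namespace Pool.Agent.Tach

open Finset

variable {A : Type} [CommRing A] {n : ℕ → ℕ} (D : Idx n → Idx n → A)

section basic

variable (hDD : ∀ (p : Idx n) (r : Fin (n (p.1 + 1 + 1))),
  ∑ s : Fin (n (p.1 + 1)), D p ⟨p.1 + 1, s⟩ * D ⟨p.1 + 1, s⟩ ⟨p.1 + 1 + 1, r⟩ = 0)

include hDD in
lemma lop_lop (z : VV A n) : lop D (lop D z) = 0 := by
  funext p q
  rw [lop_apply]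
  simp only [lop_apply]
  simp only [mul_sum]
  change ∑ s : Fin (n (p.1 + 1)), ∑ r : Fin (n (p.1 + 1 + 1)),
    D p ⟨p.1 + 1, s⟩ * (D ⟨p.1 + 1, s⟩ ⟨p.1 + 1 + 1, r⟩ * z ⟨p.1 + 1 + 1, r⟩ q) = 0
  rw [sum_comm]
  refine sum_eq_zero fun r _ => ?_
  have := congrArg (· * z ⟨p.1 + 1 + 1, r⟩ q) (hDD p r)
  simp only [zero_mul, sum_mul] at this
  rw [← this]
  refine sum_congr rfl fun s _ => by ring

lemma sw_sw (z : VV A n) : sw (sw z) = z := rfl

lemma lop_rop (z : VV A n) : lop D (sw (lop D (sw z))) = sw (lop D (sw (lop D z))) := by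
  funext p q
  rw [sw_apply, lop_apply, lop_apply]
  simp only [sw_apply, lop_apply, mul_sum]
  rw [sum_comm]
  refine sum_congr rfl fun s _ => sum_congr rfl fun t _ => by ring

lemma bd_def (z : VV A n) : bd D z = lop D z + sw (lop D (sw z)) := rfl

include hDD in
lemma bd_bd (h2 : (2 : A) = 0) (z : VV A n) : bd D (bd D z) = 0 := by
  rw [bd_def, bd_def, map_add, map_add, map_add, map_add, lop_lop D hDD, sw_sw, lop_lop D hDD,
    lop_rop D z, map_zero, zero_add, add_zero]
  exact vadd_self h2 _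

lemma bd_sw (z : VV A n) : bd D (sw z) = sw (bd D z) := by
  rw [bd_def, bd_def, map_add, sw_sw, sw_sw]
  exact add_comm _ _

lemma bd_ss (z : VV A n) : bd D (ss z) = ss (bd D z) := by
  change bd D (z + sw z) = bd D z + sw (bd D z)
  rw [map_add, bd_sw]

end basic

section entries

variable {m : Ideal A} (hD : ∀ p q, D p q ∈ m)

include hD

lemma lop_ent {a : Ideal A} {z : VV A n} (hz : ∀ p q, z p q ∈ a) (p q : Idx n) :
    lop D z p q ∈ m * a := by
  rw [lop_apply]
  exact Ideal.sum_mem _ fun s _ => Ideal.mul_mem_mul (hD _ _) (hz _ _)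

lemma bd_ent {a : Ideal A} {z : VV A n} (hz : ∀ p q, z p q ∈ a) (p q : Idx n) :
    bd D z p q ∈ m * a := by
  rw [bd_def]
  exact Ideal.add_mem _ (lop_ent D hD hz p q) (lop_ent D hD (fun p q => hz q p) q p)

omit hD in
lemma hop_ent {a : Ideal A} {z : VV A n} (hz : ∀ p q, z p q ∈ a) (p q : Idx n) :
    hop z p q ∈ a := by
  rw [hop_apply]
  split_ifs
  · exact hz _ _
  · exact a.zero_mem

/-- `(h ∂)^k` multiplies the entries by `m ^ k`. -/
lemma hb_pow_ent {a : Ideal A} {z : VV A n} (hz : ∀ p q, z p q ∈ a) (k : ℕ) (p q : Idx n) :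
    ((hop * bd D) ^ k : Module.End A (VV A n)) z p q ∈ m ^ k * a := by
  induction k generalizing p q with
  | zero => simpa using hz p q
  | succ k ih =>
    rw [pow_succ' (hop * bd D) k, Module.End.mul_apply, Module.End.mul_apply, pow_succ' m,
      mul_assoc]
    exact hop_ent (fun p q => bd_ent D hD ih p q) p q

lemma bh_pow_ent {a : Ideal A} {z : VV A n} (hz : ∀ p q, z p q ∈ a) (k : ℕ) (p q : Idx n) :
    ((bd D * hop) ^ k : Module.End A (VV A n)) z p q ∈ m ^ k * a := by
  induction k generalizing p q with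
  | zero => simpa using hz p q
  | succ k ih =>
    rw [pow_succ' (bd D * hop) k, Module.End.mul_apply, Module.End.mul_apply, pow_succ' m,
      mul_assoc]
    exact bd_ent D hD (fun p q => hop_ent ih p q) p q

lemma hb_pow_zero {L : ℕ} (hL : m ^ L = ⊥) : ((hop * bd D) ^ L : Module.End A (VV A n)) = 0 := by
  ext z p q
  have := hb_pow_ent D hD (a := ⊤) (z := z) (fun _ _ => trivial) L p q
  rw [hL] at this
  simpa using this

lemma bh_pow_zero {L : ℕ} (hL : m ^ L = ⊥) : ((bd D * hop) ^ L : Module.End A (VV A n)) = 0 := by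
  ext z p q
  have := bh_pow_ent D hD (a := ⊤) (z := z) (fun _ _ => trivial) L p q
  rw [hL] at this
  simpa using this

end entries

/-- the geometric series for `h ∂` -/
def gs (L : ℕ) : Module.End A (VV A n) := ∑ k ∈ range L, (hop * bd D) ^ k

/-- the geometric series for `∂ h` -/
def gt (L : ℕ) : Module.End A (VV A n) := ∑ k ∈ range L, (bd D * hop) ^ k

section pert

variable {m : Ideal A} (hD : ∀ p q, D p q ∈ m) {L : ℕ} (hL : m ^ L = ⊥) (h2 : (2 : A) = 0)
  (hDD : ∀ (p : Idx n) (r : Fin (n (p.1 + 1 + 1))),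
    ∑ s : Fin (n (p.1 + 1)), D p ⟨p.1 + 1, s⟩ * D ⟨p.1 + 1, s⟩ ⟨p.1 + 1 + 1, r⟩ = 0)

include h2 in
lemma geom_aux (T : Module.End A (VV A n)) (L : ℕ) (hT : T ^ L = 0) :
    (∑ k ∈ range L, T ^ k) * (1 + T) = 1 ∧ (1 + T) * (∑ k ∈ range L, T ^ k) = 1 := by
  have h1 : (1 + T : Module.End A (VV A n)) = 1 - T := by
    rw [sub_eq_add_neg]
    congr 1
    exact (neg_eq_of_add_eq_zero_left (eadd_self h2 T)).symm
  rw [h1]
  refine ⟨?_, ?_⟩
  · rw [geom_sum_mul_neg, hT, sub_zero]
  · rw [mul_neg_geom_sum, hT, sub_zero]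

include hD hL h2

lemma gs_left (z : VV A n) : gs D L (z + hop (bd D z)) = z := by
  have := (geom_aux h2 (hop * bd D) L (hb_pow_zero D hD hL)).1
  exact congrArg (fun f : Module.End A (VV A n) => f z) this

lemma gs_right (z : VV A n) : gs D L z + hop (bd D (gs D L z)) = z := by
  have := (geom_aux h2 (hop * bd D) L (hb_pow_zero D hD hL)).2
  exact congrArg (fun f : Module.End A (VV A n) => f z) this

lemma gt_left (z : VV A n) : gt D L (z + bd D (hop z)) = z := by
  have := (geom_aux h2 (bd D * hop) L (bh_pow_zero D hD hL)).1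
  exact congrArg (fun f : Module.End A (VV A n) => f z) this

lemma gt_right (z : VV A n) : gt D L z + bd D (hop (gt D L z)) = z := by
  have := (geom_aux h2 (bd D * hop) L (bh_pow_zero D hD hL)).2
  exact congrArg (fun f : Module.End A (VV A n) => f z) this

/-- `∂ g = g' ∂` -/
lemma gt_bd (z : VV A n) : gt D L (bd D z) = bd D (gs D L z) := by
  have h := gs_right D hD hL h2 z
  have h' := gt_left D hD hL h2 (bd D (gs D L z))
  rw [← map_add (bd D), h] at h'
  exact h'

end pert

/-- the total operator `∂ + (1 + σ)` -/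
def Dt : Module.End A (VV A n) := bd D + ss

/-- the transferred differential on the diagonal part -/
def DU (L : ℕ) : Module.End A (UU A n) := pr ∘ₗ bd D ∘ₗ gs D L ∘ₗ dg

lemma DU_apply (L : ℕ) (u : UU A n) : DU D L u = pr (bd D (gs D L (dg u))) := rfl

lemma Dt_apply (z : VV A n) : Dt D z = bd D z + ss z := rfl

section pert2

variable {m : Ideal A} (hD : ∀ p q, D p q ∈ m) {L : ℕ} (hL : m ^ L = ⊥) (h2 : (2 : A) = 0)
  (hDD : ∀ (p : Idx n) (r : Fin (n (p.1 + 1 + 1))),
    ∑ s : Fin (n (p.1 + 1)), D p ⟨p.1 + 1, s⟩ * D ⟨p.1 + 1, s⟩ ⟨p.1 + 1 + 1, r⟩ = 0)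

include hD hL h2 hDD

/-- the perturbed inclusion is a chain map -/
lemma incl_chain (u : UU A n) : Dt D (gs D L (dg u)) = gs D L (dg (DU D L u)) := by
  set x := gs D L (dg u) with hx
  have e1 : x + hop (bd D x) = dg u := gs_right D hD hL h2 (dg u)
  have e2 : bd D (Dt D x) = ss (bd D x) := by
    rw [Dt_apply, map_add, bd_bd D hDD h2, zero_add, bd_ss]
  have e3 : ss (hop (bd D x)) + hop (ss (bd D x)) = bd D x + dg (pr (bd D x)) :=
    homotopy h2 (bd D x)
  have e4 : Dt D x + hop (bd D (Dt D x)) = dg (DU D L u) := by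
    rw [e2, Dt_apply, DU_apply, ← hx]
    have e5 : ss (x + hop (bd D x)) = 0 := by rw [e1]; exact ss_dg h2 u
    rw [map_add] at e5
    have e6 : hop (ss (bd D x)) = bd D x + dg (pr (bd D x)) + ss (hop (bd D x)) := by
      rw [← e3]
      have := vadd_self h2 (ss (hop (bd D x)))
      calc hop (ss (bd D x)) = hop (ss (bd D x)) + 0 := (add_zero _).symm
        _ = hop (ss (bd D x)) + (ss (hop (bd D x)) + ss (hop (bd D x))) := by rw [this]
        _ = _ := by abel
    rw [e6]
    have e7 := vadd_self h2 (bd D x)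
    calc bd D x + ss x + (bd D x + dg (pr (bd D x)) + ss (hop (bd D x)))
        = (bd D x + bd D x) + (ss x + ss (hop (bd D x))) + dg (pr (bd D x)) := by abel
      _ = dg (pr (bd D x)) := by rw [e7, e5, zero_add, zero_add]
  rw [← e4, gs_left D hD hL h2]

/-- the perturbed projection is a chain map -/
lemma proj_chain (w : VV A n) : pr (gt D L (Dt D w)) = DU D L (pr (gt D L w)) := by
  set y := gt D L w with hy
  have e1 : y + bd D (hop y) = w := gt_right D hD hL h2 w
  have e2 : Dt D w = (ss y + bd D (hop (ss y))) + bd D (dg (pr y)) := by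
    have e3 := homotopy h2 y
    have e4 : bd D (ss (hop y)) + bd D (hop (ss y)) = bd D y + bd D (dg (pr y)) := by
      rw [← map_add, e3, map_add]
    rw [← e1, Dt_apply, map_add, bd_bd D hDD h2, add_zero, map_add, ← bd_ss]
    have e7 := vadd_self h2 (bd D y)
    have e8 := vadd_self h2 (bd D (hop (ss y)))
    have e9 : bd D (ss (hop y)) = bd D y + bd D (dg (pr y)) + bd D (hop (ss y)) := by
      rw [← e4]
      calc bd D (ss (hop y)) = bd D (ss (hop y)) + 0 := (add_zero _).symm
        _ = bd D (ss (hop y)) + (bd D (hop (ss y)) + bd D (hop (ss y))) := by rw [e8]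
        _ = _ := by abel
    rw [e9]
    calc bd D y + (ss y + (bd D y + bd D (dg (pr y)) + bd D (hop (ss y))))
        = (bd D y + bd D y) + (ss y + bd D (hop (ss y)) + bd D (dg (pr y))) := by abel
      _ = _ := by rw [e7, zero_add]
  rw [e2, map_add, map_add, gt_left D hD hL h2, pr_ss h2, zero_add, gt_bd D hD hL h2, DU_apply]

omit hDD in
lemma proj_incl (u : UU A n) : pr (gt D L (gs D L (dg u))) = u := by
  set x := gs D L (dg u) with hx
  have e1 : x + hop (bd D x) = dg u := gs_right D hD hL h2 (dg u)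
  have e2 : x = dg u + hop (bd D x) := by
    rw [← e1, add_assoc, vadd_self h2, add_zero]
  have e3 : gt D L (dg u) = dg u := by
    have := gt_left D hD hL h2 (dg u)
    rwa [hop_dg, map_zero, add_zero] at this
  have e4 : gt D L (hop (bd D x)) = hop (bd D x) := by
    have := gt_left D hD hL h2 (hop (bd D x))
    rwa [hop_hop, map_zero, add_zero] at this
  rw [e2, map_add, map_add, e3, e4, pr_dg, pr_hop, add_zero]

end pert2

end Pool.Agent.Tach
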