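import Pool.Agent.Tach.Total
import Pool.Agent.Tach.ExtPart

set_option autoImplicit false

/-! Minimal free resolutions over a local noetherian ring. -/

namespace Pool.Agent.Tach

open Finset

section cover

variable {A : Type} [CommRing A] [IsLocalRing A] [IsNoetherianRing A]

omit [IsNoetherianRing A] in
/-- A finite module has a minimal free cover. -/
lemma exists_cover (M : Type) [AddCommGroup M] [Module A M] [Module.Finite A M] :
    ∃ (n : ℕ) (π : (Fin n → A) →ₗ[A] M), Function.Surjective π ∧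
      ∀ x ∈ LinearMap.ker π, ∀ i, x i ∈ IsLocalRing.maximalIdeal A := by
  classical
  have hex : ∃ (n : ℕ) (π : (Fin n → A) →ₗ[A] M), Function.Surjective π :=
    Module.Finite.exists_fin' A M
  obtain ⟨π, hπ⟩ := Nat.find_spec hex
  have hmin := fun m (hm : m < Nat.find hex) => Nat.find_min hex hm
  generalize Nat.find hex = n at *
  refine ⟨n, π, hπ, fun x hx i => ?_⟩
  by_contra hi
  have hu : IsUnit (x i) := by
    by_contra h
    exact hi ((IsLocalRing.mem_maximalIdeal _).2 h)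
  obtain ⟨n, rfl⟩ : ∃ m, n = m + 1 := ⟨n - 1, by have := i.2; omega⟩
  obtain ⟨c, hc⟩ := hu.exists_left_inv
  refine hmin n (Nat.lt_succ_self n) ⟨π ∘ₗ
    { toFun := fun y => i.insertNth (0 : A) y
      map_add' := by
        intro y z
        funext j
        refine Fin.succAboveCases i ?_ (fun j => ?_) j
        · simp
        · simp
      map_smul' := by
        intro c y
        funext j
        refine Fin.succAboveCases i ?_ (fun j => ?_) j
        · simp
        · simp }, ?_⟩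
  intro m
  obtain ⟨z, rfl⟩ := hπ m
  -- subtract the multiple of x
  let y : Fin (n + 1) → A := z - (z i * c) • x
  have hy : π y = π z := by
    rw [map_sub, map_smul, LinearMap.mem_ker.1 hx, smul_zero, sub_zero]
  have hyi : y i = 0 := by
    change z i - z i * c * x i = 0
    rw [mul_assoc, hc, mul_one, sub_self]
  refine ⟨fun j => y (i.succAbove j), ?_⟩
  rw [← hy]
  change π (i.insertNth (0 : A) fun j => y (i.succAbove j)) = π y
  congr 1
  funext j
  refine Fin.succAboveCases i ?_ (fun j => ?_) j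
  · rw [Fin.insertNth_apply_same, hyi]
  · rw [Fin.insertNth_apply_succAbove]

/-- A kernel to be covered. -/
structure Stg (A : Type) [CommRing A] [IsLocalRing A] where
  /-- rank -/
  n : ℕ
  /-- kernel -/
  W : Submodule A (Fin n → A)
  /-- minimality -/
  hW : ∀ x ∈ W, ∀ i, x i ∈ IsLocalRing.maximalIdeal A

/-- cover of the kernel -/
noncomputable def Stg.nx (s : Stg A) : ℕ := (exists_cover (A := A) ↥s.W).choose

/-- the covering map -/
noncomputable def Stg.pi (s : Stg A) : (Fin s.nx → A) →ₗ[A] ↥s.W :=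
  (exists_cover (A := A) ↥s.W).choose_spec.choose

lemma Stg.pi_surj (s : Stg A) : Function.Surjective s.pi :=
  (exists_cover (A := A) ↥s.W).choose_spec.choose_spec.1

/-- next stage -/
noncomputable def Stg.next (s : Stg A) : Stg A where
  n := s.nx
  W := LinearMap.ker s.pi
  hW := (exists_cover (A := A) ↥s.W).choose_spec.choose_spec.2

/-- all the stages -/
noncomputable def stg (s : Stg A) : ℕ → Stg A
  | 0 => s
  | i + 1 => (stg s i).next

end cover

section res

variable {A : Type} [CommRing A] [IsLocalRing A] [IsNoetherianRing A] (s : Stg A)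

/-- ranks -/
noncomputable abbrev rk (i : ℕ) : ℕ := (stg s i).n

/-- differential `P_{i+1} → P_i` -/
noncomputable def df (i : ℕ) : (Fin (rk s (i + 1)) → A) →ₗ[A] (Fin (rk s i) → A) :=
  (stg s i).W.subtype ∘ₗ (stg s i).pi

lemma df_range (i : ℕ) (x : Fin (rk s i) → A) : x ∈ (stg s i).W ↔ ∃ y, df s i y = x := by
  constructor
  · intro hx
    obtain ⟨y, hy⟩ := (stg s i).pi_surj ⟨x, hx⟩
    exact ⟨y, by change ((stg s i).pi y : Fin (rk s i) → A) = x; rw [hy]⟩
  · rintro ⟨y, rfl⟩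
    exact ((stg s i).pi y).2

lemma df_ker (i : ℕ) (x : Fin (rk s (i + 1)) → A) : x ∈ (stg s (i + 1)).W ↔ df s i x = 0 := by
  constructor
  · intro hx
    have h : (stg s i).pi x = 0 := hx
    exact congrArg Subtype.val h
  · intro hx
    have h : (stg s i).pi x = 0 := Subtype.ext hx
    exact h

open Classical in
/-- matrix of the resolution -/
noncomputable def Dm : Idx (rk s) → Idx (rk s) → A := fun p q =>
  if h : q.1 = p.1 + 1 then df s p.1 (Pi.single (Fin.cast (by rw [h]) q.2) 1) p.2 else 0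

lemma Dm_apply (p : Idx (rk s)) (t : Fin (rk s (p.1 + 1))) :
    Dm s p ⟨p.1 + 1, t⟩ = df s p.1 (Pi.single t 1) p.2 := by
  classical
  unfold Dm
  rw [dif_pos rfl]
  congr!

lemma Dm_sum (p : Idx (rk s)) (y : Fin (rk s (p.1 + 1)) → A) :
    ∑ t, Dm s p ⟨p.1 + 1, t⟩ * y t = df s p.1 y p.2 := by
  classical
  have h : y = ∑ t, y t • (Pi.single t (1 : A) : Fin (rk s (p.1 + 1)) → A) := by
    funext j
    rw [Finset.sum_apply, sum_eq_single j]
    · simp
    · intro b _ hb
      simp [hb.symm]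
    · intro hj; exact absurd (mem_univ j) hj
  conv_rhs => rw [h]
  rw [map_sum, Finset.sum_apply]
  refine sum_congr rfl fun t _ => ?_
  rw [map_smul, Dm_apply, Pi.smul_apply, smul_eq_mul, mul_comm]

lemma Dm_mem (p q : Idx (rk s)) : Dm s p q ∈ IsLocalRing.maximalIdeal A := by
  classical
  unfold Dm
  split_ifs with h
  · exact (stg s p.1).hW _ ((df_range s p.1 _).2 ⟨_, rfl⟩) _
  · exact Ideal.zero_mem _

lemma Dm_DD (p : Idx (rk s)) (r : Fin (rk s (p.1 + 1 + 1))) :
    ∑ t : Fin (rk s (p.1 + 1)), Dm s p ⟨p.1 + 1, t⟩ *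
      Dm s ⟨p.1 + 1, t⟩ ⟨p.1 + 1 + 1, r⟩ = 0 := by
  classical
  have h := Dm_sum s p (fun t => Dm s ⟨p.1 + 1, t⟩ ⟨p.1 + 1 + 1, r⟩)
  rw [h]
  have h1 : (fun t => Dm s ⟨p.1 + 1, t⟩ ⟨p.1 + 1 + 1, r⟩) = df s (p.1 + 1) (Pi.single r 1) := by
    funext t
    exact Dm_apply s ⟨p.1 + 1, t⟩ r
  rw [h1]
  have h2 : df s p.1 (df s (p.1 + 1) (Pi.single r 1)) = 0 :=
    (df_ker s p.1 _).1 ((df_range s (p.1 + 1) _).2 ⟨_, rfl⟩)
  rw [h2]; rfl

lemma Dm_P (i : ℕ) (v : Idx (rk s) → A) (hv : ∀ p, p.1 ≠ i + 1 → v p = 0)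
    (hv' : ∀ p : Idx (rk s), ∑ t : Fin (rk s (p.1 + 1)), Dm s p ⟨p.1 + 1, t⟩ *
      v ⟨p.1 + 1, t⟩ = 0) :
    ∃ u : Idx (rk s) → A, (∀ p, p.1 ≠ i + 2 → u p = 0) ∧
      ∀ p : Idx (rk s), v p = ∑ t : Fin (rk s (p.1 + 1)), Dm s p ⟨p.1 + 1, t⟩ *
        u ⟨p.1 + 1, t⟩ := by
  have h1 : df s i (fun t => v ⟨i + 1, t⟩) = 0 := by
    funext r
    rw [← Dm_sum s ⟨i, r⟩]
    exact hv' ⟨i, r⟩
  obtain ⟨g, hg⟩ := (df_range s (i + 1) _).1 ((df_ker s i _).2 h1)
  refine ⟨ext (i + 2) g, fun p hp => ext_ne _ hp, fun p => ?_⟩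
  by_cases hp : p.1 = i + 1
  · obtain ⟨j, r⟩ := p
    dsimp at hp
    subst hp
    have h2 : ∀ t, ext (i + 2) g (⟨i + 1 + 1, t⟩ : Idx (rk s)) = g t := fun t =>
      ext_self (i + 2) g t
    simp only [h2]
    rw [Dm_sum s ⟨i + 1, r⟩ g, hg]
  · rw [hv p hp]
    symm
    refine sum_eq_zero fun t _ => ?_
    rw [ext_ne _ (by dsimp; omega), mul_zero]

end res

end Pool.Agent.Tach
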