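import Pool.Agent.Tach.Crit

set_option autoImplicit false

/-! Exactness of the total complex of the tensor square. -/

namespace Pool.Agent.Tach

open Finset

variable {A : Type} [CommRing A] {n : ℕ → ℕ} (D : Idx n → Idx n → A)

/-- extension by zero of a vector in degree `i` -/
def ext {X : Type} [Zero X] (i : ℕ) (f : Fin (n i) → X) : Idx n → X := fun p =>
  if h : p.1 = i then f (Fin.cast (by rw [h]) p.2) else 0

lemma ext_self {X : Type} [Zero X] (i : ℕ) (f : Fin (n i) → X) (s : Fin (n i)) :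
    ext i f ⟨i, s⟩ = f s := by
  unfold ext
  rw [dif_pos rfl]
  rfl

lemma ext_ne {X : Type} [Zero X] {i : ℕ} (f : Fin (n i) → X) {p : Idx n} (h : p.1 ≠ i) :
    ext i f p = 0 := by
  unfold ext
  rw [dif_neg h]

variable (hDD : ∀ (p : Idx n) (r : Fin (n (p.1 + 1 + 1))),
    ∑ s : Fin (n (p.1 + 1)), D p ⟨p.1 + 1, s⟩ * D ⟨p.1 + 1, s⟩ ⟨p.1 + 1 + 1, r⟩ = 0)
  (h2 : (2 : A) = 0)
  (hP : ∀ (i : ℕ) (v : Idx n → A), (∀ p, p.1 ≠ i + 1 → v p = 0) →
    (∀ p : Idx n, ∑ s : Fin (n (p.1 + 1)), D p ⟨p.1 + 1, s⟩ * v ⟨p.1 + 1, s⟩ = 0) →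
    ∃ u : Idx n → A, (∀ p, p.1 ≠ i + 2 → u p = 0) ∧
      ∀ p : Idx n, v p = ∑ s : Fin (n (p.1 + 1)), D p ⟨p.1 + 1, s⟩ * u ⟨p.1 + 1, s⟩)

include hDD h2 hP

/-- peeling off the columns from the left -/
lemma peel {b : ℕ} (k : ℕ) : ∀ (j : ℕ), 1 ≤ j → j + k = b + 1 → ∀ z : VV A n, homog z b →
    bd D z = 0 → (∀ p q : Idx n, p.1 < j → z p q = 0) →
    ∃ w : VV A n, homog w (b + 1) ∧ bd D w = z := by
  classical
  induction k with
  | zero =>
    intro j hj hjk z hz _ hz0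
    refine ⟨0, fun _ _ _ => rfl, ?_⟩
    rw [map_zero]
    funext p q
    by_cases h : p.1 < j
    · exact (hz0 p q h).symm
    · exact (hz p q (by omega)).symm
  | succ k ih =>
    intro j hj hjk z hz hz' hz0
    have hex : ∀ q : Idx n, ∃ u : Idx n → A, (∀ p, p.1 ≠ j + 1 → u p = 0) ∧
        ∀ p : Idx n, (if p.1 = j then z p q else 0) =
          ∑ s : Fin (n (p.1 + 1)), D p ⟨p.1 + 1, s⟩ * u ⟨p.1 + 1, s⟩ := by
      intro q
      obtain ⟨i, rfl⟩ : ∃ i, j = i + 1 := ⟨j - 1, by omega⟩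
      refine hP i (fun p => if p.1 = i + 1 then z p q else 0) (fun p hp => if_neg hp) ?_
      intro p
      by_cases hp : p.1 + 1 = i + 1
      · have h1 : bd D z p q = 0 := by rw [hz']; rfl
        rw [bd_apply] at h1
        have h3 : ∑ s : Fin (n (q.1 + 1)), D q ⟨q.1 + 1, s⟩ * z p ⟨q.1 + 1, s⟩ = 0 := by
          refine sum_eq_zero fun s _ => ?_
          rw [hz0 _ _ (by omega), mul_zero]
        rw [h3, add_zero] at h1
        rw [← h1]
        refine sum_congr rfl fun s _ => ?_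
        rw [if_pos hp]
      · refine sum_eq_zero fun s _ => ?_
        rw [if_neg hp, mul_zero]
    choose u hu hu' using hex
    let w : VV A n := fun p q => if q.1 + j = b then u q p else 0
    have hw : homog w (b + 1) := by
      intro p q hpq
      change (if q.1 + j = b then u q p else 0) = 0
      split_ifs with h
      · exact hu q p (by omega)
      · rfl
    have hbw : ∀ p q : Idx n, p.1 < j + 1 → bd D w p q = z p q := by
      intro p q hp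
      rw [bd_apply]
      have h3 : ∑ s : Fin (n (q.1 + 1)), D q ⟨q.1 + 1, s⟩ * w p ⟨q.1 + 1, s⟩ = 0 := by
        refine sum_eq_zero fun s _ => ?_
        have : w p ⟨q.1 + 1, s⟩ = 0 := by
          change (if q.1 + 1 + j = b then u _ p else 0) = 0
          split_ifs
          · exact hu _ p (by omega)
          · rfl
        rw [this, mul_zero]
      rw [h3, add_zero]
      by_cases hq : q.1 + j = b
      · have h4 : ∀ s : Fin (n (p.1 + 1)), w ⟨p.1 + 1, s⟩ q = u q ⟨p.1 + 1, s⟩ := fun s =>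
          if_pos hq
        simp only [h4]
        rw [← hu' q p]
        by_cases hp' : p.1 = j
        · rw [if_pos hp']
        · rw [if_neg hp', hz0 p q (by omega)]
      · have h4 : ∀ s : Fin (n (p.1 + 1)), w ⟨p.1 + 1, s⟩ q = 0 := fun s => if_neg hq
        simp only [h4, mul_zero, sum_const_zero]
        by_cases hp' : p.1 = j
        · exact (hz p q (by omega)).symm
        · exact (hz0 p q (by omega)).symm
    have hwb : homog (bd D w) b := by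
      intro p q hpq
      rw [bd_apply, sum_eq_zero, sum_eq_zero, add_zero]
      · intro s _
        rw [hw _ _ (by dsimp; omega), mul_zero]
      · intro s _
        rw [hw _ _ (by dsimp; omega), mul_zero]
    obtain ⟨w', hw', hw''⟩ := ih (j + 1) (by omega) (by omega) (z - bd D w)
      (fun p q hpq => by
        rw [Pi.sub_apply, Pi.sub_apply, hz p q hpq, hwb p q hpq, sub_zero])
      (by rw [map_sub, hz', bd_bd D hDD h2, sub_zero])
      (fun p q hp => by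
        rw [Pi.sub_apply, Pi.sub_apply, hbw p q hp, sub_self])
    refine ⟨w' + w, fun p q hpq => ?_, ?_⟩
    · rw [Pi.add_apply, Pi.add_apply, hw p q hpq, hw' p q hpq, add_zero]
    · rw [map_add, hw'', sub_add_cancel]

variable {M : Type} [AddCommGroup M] [Module A M] (π : (Fin (n 0) → A) →ₗ[A] M)
  (hπ : Function.Surjective π)
  (hπ0 : ∀ s : Fin (n (0 + 1)), π (fun r => D ⟨0, r⟩ ⟨0 + 1, s⟩) = 0)
  (hπk : ∀ x : Fin (n 0) → A, π x = 0 → ∃ u : Idx n → A, (∀ p, p.1 ≠ 1 → u p = 0) ∧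
    ∀ r, x r = ∑ s : Fin (n (0 + 1)), D ⟨0, r⟩ ⟨0 + 1, s⟩ * u ⟨0 + 1, s⟩)

include hπ hπk

/-- A cycle whose bottom row lifts is a boundary. -/
lemma total_exact_z {b : ℕ} (z : VV A n) (hz : homog z b) (hz' : bd D z = 0) (η : Idx n → M)
    (hη0 : ∀ q, q.1 ≠ b + 1 → η q = 0)
    (hη : ∀ q : Idx n, π (fun r => z ⟨0, r⟩ q) =
      ∑ s : Fin (n (q.1 + 1)), D q ⟨q.1 + 1, s⟩ • η ⟨q.1 + 1, s⟩) :
    ∃ w : VV A n, homog w (b + 1) ∧ bd D w = z := by
  classical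
  have hlift : ∀ q : Idx n, ∃ y : Fin (n 0) → A, π y = η q ∧ (q.1 ≠ b + 1 → y = 0) := by
    intro q
    by_cases hq : q.1 = b + 1
    · obtain ⟨y, hy⟩ := hπ (η q)
      exact ⟨y, hy, fun h => absurd hq h⟩
    · exact ⟨0, by rw [map_zero, hη0 q hq], fun _ => rfl⟩
  choose y hy hy0 using hlift
  have hex : ∀ q : Idx n, ∃ u : Idx n → A, (∀ p, p.1 ≠ 1 → u p = 0) ∧
      (q.1 ≠ b → u = 0) ∧
      ∀ r, z ⟨0, r⟩ q - ∑ t : Fin (n (q.1 + 1)), D q ⟨q.1 + 1, t⟩ * y ⟨q.1 + 1, t⟩ r =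
        ∑ s : Fin (n (0 + 1)), D ⟨0, r⟩ ⟨0 + 1, s⟩ * u ⟨0 + 1, s⟩ := by
    intro q
    by_cases hq : q.1 = b
    · have h1 : π (fun r => z ⟨0, r⟩ q -
          ∑ t : Fin (n (q.1 + 1)), D q ⟨q.1 + 1, t⟩ * y ⟨q.1 + 1, t⟩ r) = 0 := by
        have h3 : (fun r => z ⟨0, r⟩ q -
            ∑ t : Fin (n (q.1 + 1)), D q ⟨q.1 + 1, t⟩ * y ⟨q.1 + 1, t⟩ r) =
            (fun r => z ⟨0, r⟩ q) -
              ∑ t : Fin (n (q.1 + 1)), D q ⟨q.1 + 1, t⟩ • y ⟨q.1 + 1, t⟩ := by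
          funext r
          rw [Pi.sub_apply, Finset.sum_apply]
          rfl
        rw [h3, map_sub, map_sum, hη q, sub_eq_zero]
        refine sum_congr rfl fun t _ => ?_
        rw [map_smul, hy]
      obtain ⟨u, hu, hu'⟩ := hπk _ h1
      exact ⟨u, hu, fun h => absurd hq h, hu'⟩
    · refine ⟨0, fun _ _ => rfl, fun _ => rfl, fun r => ?_⟩
      rw [hz _ _ (by dsimp; omega), sum_eq_zero, sum_eq_zero, sub_zero]
      · intro s _
        rw [Pi.zero_apply, mul_zero]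
      · intro t _
        rw [hy0 _ (by dsimp; omega), Pi.zero_apply, mul_zero]
  choose u hu hu0 hu' using hex
  let w : VV A n := fun p q => ext 0 (y q) p + u q p
  have hw : homog w (b + 1) := by
    intro p q hpq
    change ext 0 (y q) p + u q p = 0
    by_cases hp : p.1 = 0
    · rw [hy0 q (by omega), hu q p (by omega), add_zero]
      unfold ext
      split_ifs <;> rfl
    · rw [ext_ne _ hp, zero_add]
      by_cases hp1 : p.1 = 1
      · rw [hu0 q (by omega)]; rfl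
      · exact hu q p hp1
  have hwb : homog (bd D w) b := by
    intro p q hpq
    rw [bd_apply, sum_eq_zero, sum_eq_zero, add_zero]
    · intro s _
      rw [hw _ _ (by dsimp; omega), mul_zero]
    · intro s _
      rw [hw _ _ (by dsimp; omega), mul_zero]
  have h0 : ∀ (r : Fin (n 0)) (q : Idx n), bd D w ⟨0, r⟩ q = z ⟨0, r⟩ q := by
    intro r q
    rw [bd_apply]
    have h1 : ∑ s : Fin (n (0 + 1)), D ⟨0, r⟩ ⟨0 + 1, s⟩ * w ⟨0 + 1, s⟩ q =
        ∑ s : Fin (n (0 + 1)), D ⟨0, r⟩ ⟨0 + 1, s⟩ * u q ⟨0 + 1, s⟩ := by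
      refine sum_congr rfl fun s _ => ?_
      have h7 : w ⟨0 + 1, s⟩ q = u q ⟨0 + 1, s⟩ := by
        change ext 0 (y q) ⟨0 + 1, s⟩ + u q ⟨0 + 1, s⟩ = _
        have h8 : ext 0 (y q) (⟨0 + 1, s⟩ : Idx n) = 0 := ext_ne _ (by simp)
        exact (congrArg (· + u q ⟨0 + 1, s⟩) h8).trans (_root_.zero_add _)
      rw [h7]
    have h3 : ∑ s : Fin (n (q.1 + 1)), D q ⟨q.1 + 1, s⟩ * w ⟨0, r⟩ ⟨q.1 + 1, s⟩ =
        ∑ t : Fin (n (q.1 + 1)), D q ⟨q.1 + 1, t⟩ * y ⟨q.1 + 1, t⟩ r := by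
      refine sum_congr rfl fun s _ => ?_
      change _ * (ext 0 (y ⟨q.1 + 1, s⟩) ⟨0, r⟩ + u ⟨q.1 + 1, s⟩ ⟨0, r⟩) = _
      rw [ext_self, hu _ _ (by simp), add_zero]
    change (∑ s : Fin (n (0 + 1)), D ⟨0, r⟩ ⟨0 + 1, s⟩ * w ⟨0 + 1, s⟩ q) + _ = _
    rw [h1, h3, ← hu' q r, sub_add_cancel]
  obtain ⟨w', hw', hw''⟩ := peel D hDD h2 hP (b := b) b 1 le_rfl (Nat.add_comm 1 b)
    (z - bd D w)
    (fun p q hpq => by
      rw [Pi.sub_apply, Pi.sub_apply, hz p q hpq, hwb p q hpq, sub_zero])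
    (by rw [map_sub, hz', bd_bd D hDD h2, sub_zero])
    (fun p q hp => by
      obtain ⟨i, r⟩ := p
      have : i = 0 := by simpa using hp
      subst this
      rw [Pi.sub_apply, Pi.sub_apply, h0, sub_self])
  refine ⟨w' + w, fun p q hpq => ?_, ?_⟩
  · rw [Pi.add_apply, Pi.add_apply, hw p q hpq, hw' p q hpq, add_zero]
  · rw [map_add, hw'', sub_add_cancel]

variable {N : ℕ}
  (hM : ∀ b, N ≤ b → ∀ ξ : Idx n → M, (∀ q, q.1 ≠ b → ξ q = 0) →
    (∀ q : Idx n, ∑ s : Fin (n (q.1 + 1)), D q ⟨q.1 + 1, s⟩ • ξ ⟨q.1 + 1, s⟩ = 0) →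
    ∃ η : Idx n → M, (∀ q, q.1 ≠ b + 1 → η q = 0) ∧
      ∀ q : Idx n, ξ q = ∑ s : Fin (n (q.1 + 1)), D q ⟨q.1 + 1, s⟩ • η ⟨q.1 + 1, s⟩)

include hπ0 hM

/-- Exactness of the tensor square in high degrees. -/
lemma total_exact : ∀ b, N ≤ b → ∀ z : VV A n, homog z b → bd D z = 0 →
    ∃ w : VV A n, homog w (b + 1) ∧ bd D w = z := by
  classical
  intro b hb z hz hz'
  have hξ0 : ∀ q : Idx n, q.1 ≠ b → π (fun r => z ⟨0, r⟩ q) = 0 := by
    intro q hq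
    have : (fun r => z ⟨0, r⟩ q) = 0 := by
      funext r
      exact hz _ _ (by dsimp; omega)
    rw [this, map_zero]
  have hξ1 : ∀ q : Idx n, ∑ s : Fin (n (q.1 + 1)),
      D q ⟨q.1 + 1, s⟩ • π (fun r => z ⟨0, r⟩ ⟨q.1 + 1, s⟩) = 0 := by
    intro q
    have h1 : ∑ s : Fin (n (q.1 + 1)), D q ⟨q.1 + 1, s⟩ • π (fun r => z ⟨0, r⟩ ⟨q.1 + 1, s⟩)
        = π (∑ s : Fin (n (q.1 + 1)), D q ⟨q.1 + 1, s⟩ • (fun r => z ⟨0, r⟩ ⟨q.1 + 1, s⟩)) := by
      rw [map_sum]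
      refine sum_congr rfl fun s _ => ?_
      rw [map_smul]
    have h3 : (∑ s : Fin (n (q.1 + 1)), D q ⟨q.1 + 1, s⟩ • (fun r => z ⟨0, r⟩ ⟨q.1 + 1, s⟩) :
          Fin (n 0) → A)
        = ∑ s : Fin (n (0 + 1)), (z ⟨0 + 1, s⟩ q) • (fun r => D ⟨0, r⟩ ⟨0 + 1, s⟩) := by
      funext r
      rw [Finset.sum_apply, Finset.sum_apply]
      have h4 : bd D z ⟨0, r⟩ q = 0 := by rw [hz']; rfl
      rw [bd_apply] at h4
      have h5 := add_self2 h2 (∑ s : Fin (n (q.1 + 1)), D q ⟨q.1 + 1, s⟩ * z ⟨0, r⟩ ⟨q.1 + 1, s⟩)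
      have h6 : ∑ s : Fin (n (q.1 + 1)), D q ⟨q.1 + 1, s⟩ * z ⟨0, r⟩ ⟨q.1 + 1, s⟩ =
          ∑ s : Fin (n (0 + 1)), D ⟨0, r⟩ ⟨0 + 1, s⟩ * z ⟨0 + 1, s⟩ q := by
        linear_combination h5 - h4
      refine Eq.trans h6 (sum_congr rfl fun s _ => ?_)
      exact mul_comm _ _
    rw [h1, h3, map_sum]
    refine sum_eq_zero fun s _ => ?_
    rw [map_smul, hπ0, smul_zero]
  obtain ⟨η, hη0, hη⟩ := hM b hb (fun q => π (fun r => z ⟨0, r⟩ q)) hξ0 hξ1
  exact total_exact_z D hDD h2 hP π hπ hπk z hz hz' η hη0 hη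

end Pool.Agent.Tach
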